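import Pool.Agent.Y842.CY.Eqv

/-!
Library Y842.CY (helper842), part 6: actions of compact groups, functions of finite type separate points.
-/

set_option autoImplicit false

open Finset Filter Topology MeasureTheory
open scoped Matrix

namespace Pool.Agent.Y842.CY

open Pool.Agent.Y842.CX

section
variable {X K : Type} [TopologicalSpace X] [CompactSpace X] [FirstCountableTopology X] [T2Space X]
  [TopologicalSpace K] [Group K] [IsTopologicalGroup K]
  [CompactSpace K] [MeasurableSpace K] [BorelSpace K] [MulAction K X] [ContinuousSMul K X]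

lemma intg (μ : Measure K) [IsFiniteMeasureOnCompacts μ] (h : K → ℂ) (hh : Continuous h) : Integrable h μ :=
  hh.integrable_of_hasCompactSupport (HasCompactSupport.of_compactSpace h)

/-- averages over the group -/
noncomputable def av (μ : Measure K) [IsFiniteMeasureOnCompacts μ] (F : C(X, ℂ)) (h : C(K, ℂ)) : C(X, ℂ) where
  toFun x := ∫ l, F (l⁻¹ • x) * h l ∂μ
  continuous_toFun := by
    have h1 : Continuous (Function.uncurry fun (x : X) (l : K) => F (l⁻¹ • x) * h l) := by
      unfold Function.uncurry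
      fun_prop
    have h2 := continuous_parametric_integral_of_continuous (μ := μ) h1 (isCompact_univ (X := K))
    simpa using h2

lemma av_apply (μ : Measure K) [IsFiniteMeasureOnCompacts μ] (F : C(X, ℂ)) (h : C(K, ℂ)) (x : X) :
    av μ F h x = ∫ l, F (l⁻¹ • x) * h l ∂μ := rfl

lemma av_eqv (μ : Measure K) [IsFiniteMeasureOnCompacts μ] [μ.IsMulLeftInvariant] (F : C(X, ℂ)) {h : C(K, ℂ)}
    (hh : Eqv K h) : Eqv K (av μ F h) := by
  obtain ⟨J, iJ, dJ, V, D, ⟨j, hj⟩, hD, hV⟩ := hh
  refine ⟨J, iJ, dJ, fun i => av μ F (V i), D, ⟨j, by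
    show av μ F (V j) = av μ F h
    rw [hj]⟩, hD, fun k x i => ?_⟩
  show av μ F (V i) (k • x) = ∑ j, D k i j * av μ F (V j) x
  rw [av_apply, ← integral_mul_left_eq_self (fun l => F (l⁻¹ • k • x) * V i l) k]
  have e1 : ∀ l : K, F ((k * l)⁻¹ • k • x) * V i (k * l) = ∑ j, D k i j * (F (l⁻¹ • x) * V j l) := by
    intro l
    have e2 : (k * l)⁻¹ • k • x = l⁻¹ • x := by
      rw [smul_smul]
      congr 1
      group
    have e3 : V i (k * l) = ∑ j, D k i j * V j l := hV k l i
    rw [e2, e3, mul_sum]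
    refine sum_congr rfl fun j _ => ?_
    ring
  simp only [e1]
  rw [integral_finsetSum]
  · refine sum_congr rfl fun j _ => ?_
    rw [integral_const_mul]
    rfl
  · intro j _
    apply Integrable.const_mul
    apply intg
    fun_prop

/-- the functions of finite type separate points -/
theorem sep_act (hK : RepSep K) {x x' : X} (hx : x ≠ x') : ∃ F : C(X, ℂ), Eqv K F ∧ F x ≠ F x' := by
  set μ : Measure K := Measure.haar with hμ
  obtain ⟨f, hf0, hf1, -⟩ := exists_continuous_zero_one_of_isClosed (isClosed_singleton (x := x))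
    (isClosed_singleton (x := x')) (Set.disjoint_singleton.2 hx)
  set F : C(X, ℂ) := ⟨fun z => ((f z : ℝ) : ℂ), by fun_prop⟩ with hF
  have hFx : F x ≠ F x' := by
    have h1 : f x = 0 := hf0 rfl
    have h2 : f x' = 1 := hf1 rfl
    show ((f x : ℝ) : ℂ) ≠ ((f x' : ℝ) : ℂ)
    rw [h1, h2]
    norm_num
  by_contra hcon
  push Not at hcon
  set G : C(K, ℂ) := ⟨fun l => F (l⁻¹ • x) - F (l⁻¹ • x'), by fun_prop⟩ with hG
  have hG1 : G 1 ≠ 0 := by
    show F ((1 : K)⁻¹ • x) - F ((1 : K)⁻¹ • x') ≠ 0
    rw [inv_one, one_smul, one_smul]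
    exact sub_ne_zero.2 hFx
  have h0 : ∀ h : C(K, ℂ), h ∈ Submodule.span ℂ {F : C(K, ℂ) | Eqv K F} → ∫ l, G l * h l ∂μ = 0 := by
    intro h hh
    induction hh using Submodule.span_induction with
    | mem h hh =>
      have h1 := hcon (av μ F h) (av_eqv μ F hh)
      rw [av_apply, av_apply] at h1
      have e : ∀ l, G l * h l = F (l⁻¹ • x) * h l - F (l⁻¹ • x') * h l := by
        intro l
        show (F (l⁻¹ • x) - F (l⁻¹ • x')) * h l = _
        ring
      simp only [e]
      rw [integral_sub (intg μ _ (by fun_prop)) (intg μ _ (by fun_prop)), h1, sub_self]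
    | zero => simp
    | add a b ha hb h1 h2 =>
      have e : ∀ l, G l * (a + b) l = G l * a l + G l * b l := by
        intro l
        rw [ContinuousMap.add_apply]
        ring
      simp only [e]
      rw [integral_add (intg μ _ (by fun_prop)) (intg μ _ (by fun_prop)), h1, h2, add_zero]
    | smul c a ha h1 =>
      have e : ∀ l, G l * (c • a) l = c * (G l * a l) := by
        intro l
        rw [ContinuousMap.smul_apply, smul_eq_mul]
        ring
      simp only [e]
      rw [integral_const_mul, h1, mul_zero]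
  have hpos : 0 < ∫ l, ‖G l‖ ^ 2 ∂μ := by
    apply Continuous.integral_pos_of_hasCompactSupport_nonneg_nonzero (x := (1 : K))
    · fun_prop
    · exact HasCompactSupport.of_compactSpace _
    · intro l
      positivity
    · exact pow_ne_zero 2 (norm_ne_zero_iff.2 hG1)
  set I : ℝ := ∫ l, ‖G l‖ ^ 2 ∂μ with hI
  set m : ℝ := μ.real Set.univ with hm
  have hm0 : 0 ≤ m := measureReal_nonneg
  have hGn : 0 ≤ ‖G‖ := norm_nonneg _
  obtain ⟨h, hh, hd⟩ := dense_grp hK (star G) (I / (2 * (‖G‖ + 1) * (m + 1))) (by positivity)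
  have e1 : ((I : ℝ) : ℂ) = ∫ l, G l * (star G - h) l ∂μ := by
    have e2 : ∫ l, G l * (star G - h) l ∂μ = ∫ l, (((‖G l‖ ^ 2 : ℝ) : ℂ) - G l * h l) ∂μ := by
      apply integral_congr_ae
      filter_upwards with l
      rw [ContinuousMap.sub_apply, ContinuousMap.star_apply, mul_sub]
      congr 1
      rw [← Complex.normSq_eq_norm_sq]
      exact Complex.mul_conj (G l)
    rw [e2, integral_sub (intg μ _ (by fun_prop)) (intg μ _ (by fun_prop)), h0 h hh, sub_zero]
    exact (integral_complex_ofReal (f := fun l => ‖G l‖ ^ 2)).symm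
  have h2 : ‖∫ l, G l * (star G - h) l ∂μ‖ ≤ ‖G‖ * (I / (2 * (‖G‖ + 1) * (m + 1))) * m := by
    apply norm_integral_le_of_norm_le_const
    filter_upwards with l
    rw [norm_mul]
    exact mul_le_mul (G.norm_coe_le_norm l) (((star G - h).norm_coe_le_norm l).trans hd.le) (norm_nonneg _) hGn
  rw [← e1, Complex.norm_real, Real.norm_of_nonneg hpos.le] at h2
  have h3 : ‖G‖ * (I / (2 * (‖G‖ + 1) * (m + 1))) * m ≤ I / 2 := by
    have h4 : ‖G‖ * m ≤ (‖G‖ + 1) * (m + 1) := by nlinarith
    calc ‖G‖ * (I / (2 * (‖G‖ + 1) * (m + 1))) * m = (‖G‖ * m) * (I / (2 * (‖G‖ + 1) * (m + 1))) := by ring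
      _ ≤ ((‖G‖ + 1) * (m + 1)) * (I / (2 * (‖G‖ + 1) * (m + 1))) :=
          mul_le_mul_of_nonneg_right h4 (by positivity)
      _ = I / 2 := by field_simp
  linarith

end

end Pool.Agent.Y842.CY
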