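import Pool.Agent.Y842.CY.Minor
import Pool.Agent.Y842.CX.Nat

/-!
Library Y842.CY (helper842), part 3: two point sums twisted by arbitrary real polynomials.
-/

set_option autoImplicit false

open Finset

namespace Pool.Agent.Y842.CY

open Pool.Agent.Y842.CX
open Pool.Agent.Y842.PH
open Pool.Agent.Y842.PG (pair_bd per_I harm_le sq_le Flp flip_Flp)
open Pool.Agent.Helper602.MK (ee)
open Pool.Agent.Helper602.MK.N_J1c (c_ee_add c_ee_int c_norm_ee)
open Pool.Agent.TH823.MRS (ExpoSmall)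

/-- the sums of `a` with all linear phases are small in logarithmic mean -/
def AllPh (a : ℕ → ℂ) : Prop := ∀ ε : ℝ, 0 < ε → ∃ X₀ : ℕ, ∀ X : ℕ, X₀ ≤ X →
  ∃ B : ℕ → ℝ, (∀ N (α : ℝ), ‖∑ n ∈ Icc 1 N, a n * ee (α * n)‖ ≤ B N) ∧
    ∑ N ∈ Icc 1 X, B N / (N : ℝ) ^ 2 ≤ ε * Real.log X

lemma AllPh.lin {a : ℕ → ℂ} (h : AllPh a) (β c : ℝ) : AllPh (fun n => a n * ee (β * n + c)) := by
  intro ε hε
  obtain ⟨X₀, h1⟩ := h ε hε
  refine ⟨X₀, fun X hX => ?_⟩
  obtain ⟨B, hB1, hB2⟩ := h1 X hX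
  refine ⟨B, fun N α => ?_, hB2⟩
  have e : ∑ n ∈ Icc 1 N, a n * ee (β * n + c) * ee (α * n) = (∑ n ∈ Icc 1 N, a n * ee ((α + β) * n)) * ee c := by
    rw [sum_mul]
    refine sum_congr rfl fun n _ => ?_
    rw [add_mul, c_ee_add, c_ee_add]
    ring
  rw [e, norm_mul, c_norm_ee, mul_one]
  exact hB1 N _

lemma AllPh.per {a : ℕ → ℂ} (h : AllPh a) (q : ℕ) (hq : 1 ≤ q) (c : ℕ → ℂ) (hc : ∀ n, ‖c n‖ ≤ 1)
    (hcq : ∀ n, c (n + q) = c n) : AllPh (fun n => a n * c n) := by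
  intro ε hε
  have hq0 : (0 : ℝ) < q := by exact_mod_cast hq
  obtain ⟨X₀, h1⟩ := h (ε / q) (by positivity)
  refine ⟨X₀, fun X hX => ?_⟩
  obtain ⟨B, hB1, hB2⟩ := h1 X hX
  refine ⟨fun N => q * B N, fun N α => ?_, ?_⟩
  · exact per_I N q hq a c 0 hc hcq (B N) (hB1 N) α
  · have e : ∑ N ∈ Icc 1 X, (q : ℝ) * B N / (N : ℝ) ^ 2 = q * ∑ N ∈ Icc 1 X, B N / (N : ℝ) ^ 2 := by
      rw [mul_sum]
      refine sum_congr rfl fun N _ => ?_
      rw [mul_div_assoc]
    rw [e]
    calc (q : ℝ) * ∑ N ∈ Icc 1 X, B N / (N : ℝ) ^ 2 ≤ q * (ε / q * Real.log X) :=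
          mul_le_mul_of_nonneg_left hB2 hq0.le
      _ = ε * Real.log X := by field_simp

/-- choosing the worst phases -/
lemma allPh_of {a : ℕ → ℂ} (ha : ∀ n, ‖a n‖ ≤ 1) (h : ∀ ε : ℝ, 0 < ε → ∃ X₀ : ℕ, ∀ X : ℕ, X₀ ≤ X →
      ∀ α : ℕ → ℝ, ∑ N ∈ Icc 1 X, ‖∑ n ∈ Icc 1 N, a n * ee (α N * n)‖ / (N : ℝ) ^ 2 ≤ ε * Real.log X) : AllPh a := by
  intro ε hε
  obtain ⟨X₁, hX₁⟩ := h (ε / 2) (by positivity)
  obtain ⟨X₂, hX₂⟩ := Filter.eventually_atTop.1 ((Filter.tendsto_atTop.1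
    (Real.tendsto_log_atTop.comp tendsto_natCast_atTop_atTop)) (4 / ε))
  refine ⟨X₁ + X₂, fun X hX => ?_⟩
  have hlog : 4 / ε ≤ Real.log X := hX₂ X (by omega)
  set F : ℕ → ℝ → ℝ := fun N α => ‖∑ n ∈ Icc 1 N, a n * ee (α * n)‖ with hF
  have hbd : ∀ N, BddAbove (Set.range (F N)) := by
    intro N
    refine ⟨(N : ℝ), ?_⟩
    rintro _ ⟨α, rfl⟩
    refine (norm_sum_le _ _).trans ?_
    calc ∑ n ∈ Icc 1 N, ‖a n * ee (α * n)‖ ≤ ∑ n ∈ Icc 1 N, (1 : ℝ) := by
          refine sum_le_sum fun n hn => ?_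
          rw [norm_mul, c_norm_ee, mul_one]
          exact ha n
      _ = (N : ℝ) := by simp
  have hex : ∀ N, ∃ α : ℝ, (⨆ β, F N β) - 1 < F N α := fun N => exists_lt_of_lt_ciSup (by linarith)
  choose α hα using hex
  refine ⟨fun N => F N (α N) + 1, fun N β => ?_, ?_⟩
  · have h1 : F N β ≤ ⨆ β, F N β := le_ciSup (hbd N) β
    have h2 := hα N
    show F N β ≤ F N (α N) + 1
    linarith
  · have h1 := hX₁ X (by omega) α
    have h2 : ∀ N ∈ Icc 1 X, (F N (α N) + 1) / (N : ℝ) ^ 2 =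
        ‖∑ n ∈ Icc 1 N, a n * ee (α N * n)‖ / (N : ℝ) ^ 2 + 1 / (N : ℝ) ^ 2 := by
      intro N _
      rw [add_div]
    rw [sum_congr rfl h2, sum_add_distrib]
    have h3 := sq_le X
    have h4 : 2 ≤ ε / 2 * Real.log X := by
      calc (2 : ℝ) = ε / 2 * (4 / ε) := by field_simp; norm_num
        _ ≤ ε / 2 * Real.log X := mul_le_mul_of_nonneg_left hlog (by positivity)
    linarith

/-- irrational leading coefficients -/
lemma allPh_irr {g : ℕ → ℂ} (hg : ∀ n, ‖g n‖ ≤ 1) (hm : ∀ m n : ℕ, Nat.Coprime m n → g (m * n) = g m * g n)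
    (k j : ℕ) (hj : 1 ≤ j) (θ : ℝ) (hθ : Irrational θ) (φ : ℕ → ℝ) (hφ : PP j θ φ) :
    AllPh (fun n => g n * g (n + k) * ee (φ n)) := by
  refine allPh_of (fun n => by
    rw [norm_mul, norm_mul, c_norm_ee, mul_one]
    exact mul_le_one₀ (hg _) (norm_nonneg _) (hg _)) (fun ε hε => ?_)
  obtain ⟨R, X₁, hX₁⟩ := poly_minor j (r := 2) (by norm_num) ![0, k] (ε / 2) (by positivity)
  -- from some point on the leading coefficient is minor
  obtain ⟨N₁, hN₁⟩ : ∃ N₁ : ℕ, ∀ N : ℕ, N₁ ≤ N → ∀ q : ℕ, 1 ≤ q → q ≤ R → ∀ A : ℤ, (R : ℝ) ≤ |θ - A / q| * N := by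
    have hq : ∀ q : ℕ, 1 ≤ q → ∃ c : ℝ, 0 < c ∧ ∀ A : ℤ, c ≤ |θ - A / q| := by
      intro q hq
      have hq0 : (0 : ℝ) < q := by exact_mod_cast hq
      have hirr : Irrational (q * θ) := hθ.natCast_mul (by omega)
      refine ⟨|q * θ - round (q * θ)| / q, ?_, fun A => ?_⟩
      · apply div_pos _ hq0
        rw [abs_pos, sub_ne_zero]
        exact hirr.ne_int _
      · have h1 := round_le (q * θ) A
        rw [div_le_iff₀ hq0]
        have e : |θ - A / q| * q = |q * θ - A| := by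
          rw [← abs_of_pos hq0, ← abs_mul, abs_of_pos hq0]
          congr 1
          field_simp
        rw [e]
        exact h1
    have hq2 : ∀ q : ℕ, ∃ N₁ : ℕ, 1 ≤ q → ∀ N : ℕ, N₁ ≤ N → ∀ A : ℤ, (R : ℝ) ≤ |θ - A / q| * N := by
      intro q
      by_cases hq1 : 1 ≤ q
      · obtain ⟨c, hc0, hc⟩ := hq q hq1
        obtain ⟨N₁, hN₁⟩ := exists_nat_ge (R / c)
        refine ⟨N₁, fun _ N hN A => ?_⟩
        rw [div_le_iff₀ hc0] at hN₁
        have h1 : (N₁ : ℝ) ≤ N := by exact_mod_cast hN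
        have h2 := hc A
        have h3 : (0 : ℝ) ≤ N := Nat.cast_nonneg N
        nlinarith
      · exact ⟨0, fun h => absurd h hq1⟩
    choose M hM using hq2
    refine ⟨∑ q ∈ range (R + 1), M q, fun N hN q hq1 hqR A => ?_⟩
    exact hM q hq1 N (le_trans (single_le_sum (fun _ _ => Nat.zero_le _) (mem_range.2 (by omega))) hN) A
  obtain ⟨X₂, hX₂⟩ := Filter.eventually_atTop.1 ((Filter.tendsto_atTop.1
    (Real.tendsto_log_atTop.comp tendsto_natCast_atTop_atTop)) (2 * N₁ / ε))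
  refine ⟨X₁ + X₂, fun X hX α => ?_⟩
  have hlog : 2 * N₁ / ε ≤ Real.log X := hX₂ X (by omega)
  rw [div_le_iff₀ hε] at hlog
  have h1 := hX₁ X (by omega) ![g, g] (fun t n => by
      fin_cases t
      · exact hg n
      · exact hg n) (fun t m n hmn => by
      fin_cases t
      · exact hm m n hmn
      · exact hm m n hmn) (fun _ => θ) (fun N n => φ n + α N * n) (fun N => N) (fun _ => le_refl _)
      ((Icc 1 X).filter fun N => N₁ ≤ N) (filter_subset _ _) (fun N _ => PP.lin hj hφ _)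
      (fun N hN q hq1 hqR A => hN₁ N (mem_filter.1 hN).2 q hq1 hqR A)
  rw [← sum_filter_add_sum_filter_not (Icc 1 X) (fun N => N₁ ≤ N)]
  have h2 : ∑ N ∈ (Icc 1 X).filter (fun N => N₁ ≤ N),
      ‖∑ n ∈ Icc 1 N, g n * g (n + k) * ee (φ n) * ee (α N * n)‖ / (N : ℝ) ^ 2 ≤ ε / 2 * Real.log X := by
    refine le_trans (le_of_eq (sum_congr rfl fun N _ => ?_)) h1
    congr 2
    refine sum_congr rfl fun n _ => ?_
    rw [Fin.prod_univ_two, c_ee_add]
    simp only [Matrix.cons_val_zero, Matrix.cons_val_one, add_zero]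
    ring
  have h3 : ∑ N ∈ (Icc 1 X).filter (fun N => ¬ N₁ ≤ N),
      ‖∑ n ∈ Icc 1 N, g n * g (n + k) * ee (φ n) * ee (α N * n)‖ / (N : ℝ) ^ 2 ≤ N₁ := by
    calc _ ≤ ∑ N ∈ (Icc 1 X).filter (fun N => ¬ N₁ ≤ N), (1 : ℝ) := by
          refine sum_le_sum fun N hN => ?_
          have hN1 : 1 ≤ N := (mem_Icc.1 (mem_filter.1 hN).1).1
          have hN0 : (1 : ℝ) ≤ N := by exact_mod_cast hN1
          rw [div_le_one (by positivity)]
          have h4 : ‖∑ n ∈ Icc 1 N, g n * g (n + k) * ee (φ n) * ee (α N * n)‖ ≤ N := by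
            refine (norm_sum_le _ _).trans ?_
            calc ∑ n ∈ Icc 1 N, ‖g n * g (n + k) * ee (φ n) * ee (α N * n)‖ ≤ ∑ n ∈ Icc 1 N, (1 : ℝ) := by
                  refine sum_le_sum fun n hn => ?_
                  rw [norm_mul, norm_mul, norm_mul, c_norm_ee, c_norm_ee, mul_one, mul_one]
                  exact mul_le_one₀ (hg _) (norm_nonneg _) (hg _)
              _ = (N : ℝ) := by simp
          nlinarith
      _ ≤ N₁ := by
          rw [sum_const, nsmul_eq_mul, mul_one]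
          have h5 : ((Icc 1 X).filter (fun N => ¬ N₁ ≤ N)) ⊆ range N₁ := by
            intro N hN
            rw [mem_range]
            have := (mem_filter.1 hN).2
            omega
          have h6 := card_le_card h5
          rw [card_range] at h6
          exact_mod_cast h6
  linarith

/-- **two point sums twisted by polynomials** -/
theorem allPh_poly {g : ℕ → ℂ} (hg : ∀ n, ‖g n‖ ≤ 1) (hm : ∀ m n : ℕ, Nat.Coprime m n → g (m * n) = g m * g n)
    (hE : ExpoSmall g) (hf : ∀ p : ℕ, p.Prime → Flp g p) (k : ℕ) (hk : 1 ≤ k) (d : ℕ) :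
    ∀ P : Polynomial ℝ, P.natDegree ≤ d → AllPh (fun n => g n * g (n + k) * ee (P.eval (n : ℝ))) := by
  have hbase : AllPh (fun n => g n * g (n + k)) := by
    intro ε hε
    obtain ⟨X₀, h1⟩ := pair_bd g hg hE hf 0 k (by omega) ε hε
    refine ⟨X₀, fun X hX => ?_⟩
    exact h1 X hX g (fun n _ => hg n) (fun m n _ _ h => hm m n h) (fun N => N) (fun _ => le_refl _)
  induction d with
  | zero =>
    intro P hP
    have e : P = Polynomial.C (P.coeff 0) := Polynomial.eq_C_of_natDegree_le_zero hP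
    have h1 := hbase.lin 0 (P.coeff 0)
    have e2 : (fun n : ℕ => g n * g (n + k) * ee (P.eval (n : ℝ))) =
        fun n : ℕ => g n * g (n + k) * ee (0 * n + P.coeff 0) := by
      funext n
      rw [e]
      simp
    rw [e2]
    exact h1
  | succ d ih =>
    intro P hP
    set c : ℝ := P.coeff (d + 1) with hc
    set P' : Polynomial ℝ := P - Polynomial.C c * Polynomial.X ^ (d + 1) with hP'
    have hP'd : P'.natDegree ≤ d := by
      rw [Polynomial.natDegree_le_iff_coeff_eq_zero]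
      intro N hN
      rw [hP', Polynomial.coeff_sub, Polynomial.coeff_C_mul, Polynomial.coeff_X_pow]
      by_cases h : N = d + 1
      · rw [if_pos h, mul_one, h, hc, sub_self]
      · rw [if_neg h, mul_zero, sub_zero]
        exact Polynomial.coeff_eq_zero_of_natDegree_lt (by omega)
    have hev : ∀ x : ℝ, P.eval x = P'.eval x + c * x ^ (d + 1) := by
      intro x
      rw [hP']
      simp
    have h1 := ih P' hP'd
    rcases Nat.eq_zero_or_pos d with hd | hd
    · -- linear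
      have h2 := h1.lin c 0
      have e2 : (fun n : ℕ => g n * g (n + k) * ee (P.eval (n : ℝ))) =
          fun n : ℕ => g n * g (n + k) * ee (P'.eval (n : ℝ)) * ee (c * n + 0) := by
        funext n
        rw [hev, c_ee_add, hd, zero_add, pow_one, add_zero]
        ring
      rw [e2]
      exact h2
    · by_cases hirr : Irrational c
      · have h2 := PP.poly d P hP
        refine allPh_irr hg hm k d hd _ ?_ _ h2
        exact hirr.natCast_mul (Nat.factorial_ne_zero _)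
      · -- a rational leading coefficient
        rw [irrational_iff_ne_rational] at hirr
        push Not at hirr
        obtain ⟨A, B, hB0, hAB⟩ := hirr
        have hB1 : 1 ≤ B.natAbs := Int.natAbs_pos.2 hB0
        have h2 := h1.per B.natAbs hB1 (fun n => ee (c * (n : ℝ) ^ (d + 1))) (fun n => by rw [c_norm_ee]) (fun n => by
          have hdvd : (B : ℤ) ∣ ((n : ℤ) + B.natAbs) ^ (d + 1) - (n : ℤ) ^ (d + 1) := by
            have h3 : ((n : ℤ) + B.natAbs) - n ∣ ((n : ℤ) + B.natAbs) ^ (d + 1) - (n : ℤ) ^ (d + 1) :=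
              sub_dvd_pow_sub_pow _ _ _
            refine dvd_trans ?_ h3
            rw [add_sub_cancel_left]
            exact Int.dvd_natAbs.2 dvd_rfl
          obtain ⟨t, ht⟩ := hdvd
          have hBr : (B : ℝ) ≠ 0 := by exact_mod_cast hB0
          have e3 : c * (((n + B.natAbs : ℕ) : ℝ)) ^ (d + 1) = c * (n : ℝ) ^ (d + 1) + ((A * t : ℤ) : ℝ) := by
            have h4 : (((n : ℤ) + B.natAbs : ℤ) : ℝ) ^ (d + 1) - ((n : ℤ) : ℝ) ^ (d + 1) = B * t := by
              exact_mod_cast ht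
            have h5 : ((n + B.natAbs : ℕ) : ℝ) = (((n : ℤ) + B.natAbs : ℤ) : ℝ) := by
              rw [Nat.cast_add, Int.cast_add, Int.cast_natCast, Int.cast_natCast]
            have h6 : (n : ℝ) = ((n : ℤ) : ℝ) := by push_cast; rfl
            rw [h5, h6]
            have h7 : (((n : ℤ) + B.natAbs : ℤ) : ℝ) ^ (d + 1) = ((n : ℤ) : ℝ) ^ (d + 1) + B * t := by linarith
            rw [h7, hAB]
            push_cast
            field_simp
          show ee (c * (((n + B.natAbs : ℕ) : ℝ)) ^ (d + 1)) = ee (c * (n : ℝ) ^ (d + 1))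
          rw [e3, c_ee_add, c_ee_int, mul_one])
        have e2 : (fun n : ℕ => g n * g (n + k) * ee (P.eval (n : ℝ))) =
            fun n : ℕ => g n * g (n + k) * ee (P'.eval (n : ℝ)) * ee (c * (n : ℝ) ^ (d + 1)) := by
          funext n
          rw [hev, c_ee_add]
          ring
        rw [e2]
        exact h2

end Pool.Agent.Y842.CY
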