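import Pool.Agent.Y842.CX.Skew

/-!
Library Y842.CY (helper842), part 5: functions of finite type for actions of compact groups.
-/

set_option autoImplicit false

open Finset Filter Topology MeasureTheory
open scoped Matrix Kronecker

namespace Pool.Agent.Y842.CY

open Pool.Agent.Y842.CX

section
variable {X K : Type} [TopologicalSpace X] [Group K] [MulAction K X]

/-- the function belongs to a finite family on which the group acts by unitary matrices -/
def Eqv (K : Type) {X : Type} [TopologicalSpace X] [Group K] [MulAction K X] (F : C(X, ℂ)) : Prop :=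
  ∃ (J : Type) (_ : Fintype J) (_ : DecidableEq J) (V : J → C(X, ℂ)) (D : K → Matrix J J ℂ), (∃ j, V j = F) ∧
    (∀ k, (D k)ᴴ * D k = 1) ∧ ∀ (k : K) (x : X) (i : J), V i (k • x) = ∑ j, D k i j * V j x

lemma eqv_inv {J : Type} [Fintype J] [DecidableEq J] (V : J → C(X, ℂ)) (D : K → Matrix J J ℂ)
    (hD : ∀ k, (D k)ᴴ * D k = 1) (hV : ∀ (k : K) (x : X) (i : J), V i (k • x) = ∑ j, D k i j * V j x)
    (k : K) (x x' : X) :
    ∑ j, V j (k • x) * (starRingEnd ℂ) (V j (k • x')) = ∑ j, V j x * (starRingEnd ℂ) (V j x') := by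
  have e1 : ∀ z : X, (fun j => V j (k • z)) = (D k) *ᵥ (fun j => V j z) := by
    intro z
    funext i
    rw [hV k z i]
    rfl
  have e2 : ∑ j, V j (k • x) * (starRingEnd ℂ) (V j (k • x')) =
      (fun j => V j (k • x)) ⬝ᵥ star (fun j => V j (k • x')) := rfl
  have e3 : ∑ j, V j x * (starRingEnd ℂ) (V j x') = (fun j => V j x) ⬝ᵥ star (fun j => V j x') := rfl
  rw [e2, e3, e1, e1, Matrix.star_mulVec, dotProduct_comm, ← Matrix.dotProduct_mulVec, Matrix.mulVec_mulVec, hD,
    Matrix.one_mulVec, dotProduct_comm]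

lemma eqv_one [Nonempty X] : Eqv K (1 : C(X, ℂ)) := by
  refine ⟨Unit, inferInstance, inferInstance, fun _ => 1, fun _ => 1, ⟨(), rfl⟩, fun k => by simp, fun k x i => ?_⟩
  simp

lemma eqv_inv_fun {F : C(X, ℂ)} (hF : ∀ (k : K) (x : X), F (k • x) = F x) : Eqv K F := by
  refine ⟨Unit, inferInstance, inferInstance, fun _ => F, fun _ => 1, ⟨(), rfl⟩, fun k => by simp, fun k x i => ?_⟩
  simp [hF]

lemma eqv_mul {F G : C(X, ℂ)} (hF : Eqv K F) (hG : Eqv K G) : Eqv K (F * G) := by
  obtain ⟨J, iJ, dJ, V, D, ⟨j, hj⟩, hD, hV⟩ := hF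
  obtain ⟨J', iJ', dJ', V', D', ⟨j', hj'⟩, hD', hV'⟩ := hG
  refine ⟨J × J', inferInstance, inferInstance, fun t => V t.1 * V' t.2, fun k => D k ⊗ₖ D' k, ⟨(j, j'), by
    show V j * V' j' = F * G
    rw [hj, hj']⟩, fun k => ?_, fun k x i => ?_⟩
  · rw [Matrix.conjTranspose_kronecker, ← Matrix.mul_kronecker_mul, hD, hD', Matrix.one_kronecker_one]
  · rw [ContinuousMap.mul_apply, hV, hV', Fintype.sum_prod_type, sum_mul_sum]
    refine sum_congr rfl fun a _ => sum_congr rfl fun b _ => ?_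
    show D k i.1 a * V a x * (D' k i.2 b * V' b x) = (D k i.1 a * D' k i.2 b) * (V a x * V' b x)
    ring

lemma eqv_star {F : C(X, ℂ)} (hF : Eqv K F) : Eqv K (star F) := by
  obtain ⟨J, iJ, dJ, V, D, ⟨j, hj⟩, hD, hV⟩ := hF
  refine ⟨J, iJ, dJ, fun t => star (V t), fun k => (D k).map (starRingEnd ℂ), ⟨j, by
    show star (V j) = star F
    rw [hj]⟩, fun k => ?_, fun k x i => ?_⟩
  · have h1 := congrArg (fun M : Matrix J J ℂ => M.map (starRingEnd ℂ)) (hD k)
    simp only [Matrix.map_mul] at h1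
    rw [Matrix.map_one _ (map_zero _) (map_one _)] at h1
    rw [← h1]
    rfl
  · rw [ContinuousMap.star_apply, hV, star_sum]
    refine sum_congr rfl fun a _ => ?_
    show star (D k i a * V a x) = star (D k i a) * star (V a x)
    exact star_mul' _ _

/-- the star algebra spanned by the functions of finite type -/
noncomputable def ealg (K : Type) (X : Type) [TopologicalSpace X] [Group K] [MulAction K X] [Nonempty X] :
    StarSubalgebra ℂ C(X, ℂ) where
  carrier := (Submodule.span ℂ {F : C(X, ℂ) | Eqv K F} : Set C(X, ℂ))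
  mul_mem' := by
    intro a b ha hb
    have h2 : a * b ∈ (Submodule.span ℂ {F : C(X, ℂ) | Eqv K F}) * (Submodule.span ℂ {F : C(X, ℂ) | Eqv K F}) :=
      Submodule.mul_mem_mul ha hb
    rw [Submodule.span_mul_span] at h2
    refine Submodule.span_mono ?_ h2
    rintro _ ⟨F, hF, G, hG, rfl⟩
    exact eqv_mul hF hG
  add_mem' := by
    intro a b ha hb
    exact Submodule.add_mem _ ha hb
  algebraMap_mem' := by
    intro r
    have e : algebraMap ℂ C(X, ℂ) r = r • (1 : C(X, ℂ)) := Algebra.algebraMap_eq_smul_one r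
    rw [e]
    exact Submodule.smul_mem _ _ (Submodule.subset_span eqv_one)
  star_mem' := by
    intro a ha
    have ha' : a ∈ Submodule.span ℂ {F : C(X, ℂ) | Eqv K F} := ha
    show star a ∈ Submodule.span ℂ {F : C(X, ℂ) | Eqv K F}
    induction ha' using Submodule.span_induction with
    | mem x hx => exact Submodule.subset_span (eqv_star hx)
    | zero =>
      rw [star_zero]
      exact Submodule.zero_mem _
    | add x y hx hy h3 h4 =>
      rw [star_add]
      exact Submodule.add_mem _ (h3 hx) (h4 hy)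
    | smul c x hx h3 =>
      rw [star_smul]
      exact Submodule.smul_mem _ _ (h3 hx)

lemma dense_of_sep [CompactSpace X] [Nonempty X] (hsep : ∀ x x' : X, x ≠ x' → ∃ F : C(X, ℂ), Eqv K F ∧ F x ≠ F x')
    (F : C(X, ℂ)) (ε : ℝ) (hε : 0 < ε) :
    ∃ G ∈ Submodule.span ℂ {F : C(X, ℂ) | Eqv K F}, ‖F - G‖ < ε := by
  have h2 : (ealg K X).toSubalgebra.SeparatesPoints := by
    intro x x' hx
    obtain ⟨G, hG, hne⟩ := hsep x x' hx
    refine ⟨G, ⟨G, ?_, rfl⟩, hne⟩
    exact Submodule.subset_span hG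
  have h3 := ContinuousMap.starSubalgebra_topologicalClosure_eq_top_of_separatesPoints (ealg K X) h2
  have h4 : F ∈ (ealg K X).topologicalClosure := by
    rw [h3]
    trivial
  have h5 : F ∈ closure ((ealg K X) : Set C(X, ℂ)) := h4
  rw [Metric.mem_closure_iff] at h5
  obtain ⟨G, hG, hd⟩ := h5 ε hε
  exact ⟨G, hG, by rwa [dist_eq_norm] at hd⟩

end

/-- the group itself -/
lemma eqv_rep {K : Type} [TopologicalSpace K] [Group K] {r : ℕ} (ρ : K →* Matrix.unitaryGroup (Fin r) ℂ)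
    (hρ : Continuous ρ) (i j : Fin r) :
    Eqv K (⟨fun k => (ρ k : Matrix (Fin r) (Fin r) ℂ) i j,
      (continuous_subtype_val.comp hρ).matrix_elem i j⟩ : C(K, ℂ)) := by
  refine ⟨Fin r, inferInstance, inferInstance, fun s => ⟨fun k => (ρ k : Matrix (Fin r) (Fin r) ℂ) s j,
      (continuous_subtype_val.comp hρ).matrix_elem s j⟩, fun k => (ρ k : Matrix (Fin r) (Fin r) ℂ), ⟨i, rfl⟩,
    fun k => ?_, fun k x i => ?_⟩
  · have := (ρ k).2
    rw [Matrix.mem_unitaryGroup_iff'] at this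
    exact this
  · show (ρ (k • x) : Matrix (Fin r) (Fin r) ℂ) i j = ∑ s, (ρ k : Matrix (Fin r) (Fin r) ℂ) i s *
      (ρ x : Matrix (Fin r) (Fin r) ℂ) s j
    rw [smul_eq_mul, map_mul]
    exact Matrix.mul_apply

lemma dense_grp {K : Type} [TopologicalSpace K] [Group K] [CompactSpace K] (hK : RepSep K) (F : C(K, ℂ)) (ε : ℝ)
    (hε : 0 < ε) : ∃ G ∈ Submodule.span ℂ {F : C(K, ℂ) | Eqv K F}, ‖F - G‖ < ε := by
  refine dense_of_sep (fun x x' hx => ?_) F ε hε
  obtain ⟨r, ρ, hρ, hne⟩ := hK x x' hx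
  have h1 : ∃ i j, (ρ x : Matrix (Fin r) (Fin r) ℂ) i j ≠ (ρ x' : Matrix (Fin r) (Fin r) ℂ) i j := by
    by_contra h
    push Not at h
    apply hne
    apply Subtype.ext
    ext i j
    exact h i j
  obtain ⟨i, j, hij⟩ := h1
  exact ⟨_, eqv_rep ρ hρ i j, hij⟩

end Pool.Agent.Y842.CY
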