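import Pool.Agent.Y842.CY.Main
import Pool.Agent.Y842.CX.Nat

/-!
Library Y842.CY (helper842), part 8: skew products, and polynomial orbits on tori.
-/

set_option autoImplicit false

open Finset Filter Topology

namespace Pool.Agent.Y842.CY

open Pool.Agent.Y842.CX
open Pool.Agent.Y842.PG (Flp)
open Pool.Agent.TH823.MRS (ExpoSmall)
open Pool.Agent.Helper602.MK (ee)
open Pool.Agent.Helper602.MK.N_J1c (c_ee_add c_ee_int c_norm_ee)

/-- skew products -/
theorem skew_log {u : ℕ → ℂ} (hu : ∀ n, ‖u n‖ ≤ 1) (hreal : ∀ n, (starRingEnd ℂ) (u n) = u n)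
    (hm : ∀ m n : ℕ, Nat.Coprime m n → u (m * n) = u m * u n) (hE : ExpoSmall u) (hf : ∀ p : ℕ, p.Prime → Flp u p)
    {Y K Z : Type} [TopologicalSpace Y] [CompactSpace Y] [T2Space Y] [TopologicalSpace K] [Group K]
    [IsTopologicalGroup K] [CompactSpace K] [TopologicalSpace Z] [MulAction K Z] [ContinuousSMul K Z]
    (hK : RepSep K) (S : Y → Y) (hS : Continuous S) (φ : Y → K) (hφ : Continuous φ) (y : Y)
    (hy : ∀ c : C(Y, ℂ), PolyAP (fun n => c (S^[n] y))) (z : Z) (F : C(Y × Z, ℂ)) :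
    (∀ ε : ℝ, 0 < ε → ∃ N₀ : ℕ, ∀ N : ℕ, N₀ ≤ N →
      ‖∑ n ∈ Icc 1 N, u n * F ((ext S φ)^[n] (y, z)) / n‖ ≤ ε * Real.log N) ∧
    (∀ ε : ℝ, 0 < ε → ∃ H₀ : ℕ, ∀ H : ℕ, H₀ ≤ H → ∃ N₀ : ℕ, ∀ N : ℕ, N₀ ≤ N →
      ∑ n ∈ Icc 1 N, ‖∑ m ∈ Icc 1 H, u (n + m) * F ((ext S φ)^[n + m] (y, z))‖ / n ≤
        ε * (H * Real.log N)) := by
  set G : C(Y × K, ℂ) := ⟨fun x => F (x.1, x.2 • z), by fun_prop⟩ with hG
  have hFG : ∀ n, F ((ext S φ)^[n] (y, z)) = G ((skew S φ)^[n] (y, 1)) := by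
    intro n
    rw [ext_iter]
    rfl
  have h1 : Short u atTop logw (fun X => X) (fun n => G ((skew S φ)^[n] (y, 1))) :=
    short_skew fam_log hu hK S hS φ hφ y (fun c => kills_poly hu hreal
      (fun k hk P => allPh_poly hu hm hE hf k hk P.natDegree P le_rfl) _ (hy c)) 1 G
  have h2 := log_of_short hu _ ‖G‖ (norm_nonneg _) (fun n => G.norm_coe_le_norm _) h1
  simp only [hFG]
  exact h2

/-- finite sums of polynomial phases -/
lemma polyAP_fin {b : ℕ → ℂ} (h : ∀ ε : ℝ, 0 < ε → ∃ (s : Finset ℕ) (c : ℕ → ℂ) (P : ℕ → Polynomial ℝ),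
    ∀ n, ‖b n - ∑ i ∈ s, c i * ee ((P i).eval (n : ℝ))‖ ≤ ε) : PolyAP b := by
  intro ε hε
  obtain ⟨s, c, P, h1⟩ := h (ε / 2) (by positivity)
  obtain ⟨M, hM⟩ := exists_nat_ge (∑ i ∈ s, ‖c i‖)
  obtain ⟨X₀, hX₀⟩ := eventually_atTop.1 (log_ev 1)
  set e := s.equivFin with he
  set m := s.card with hmm
  refine ⟨m + M, Fin.append (fun i => P (e.symm i)) (fun _ => 0), X₀, fun X hX => ?_⟩
  refine ⟨Fin.append (fun i _ => c (e.symm i)) (fun _ _ => 0), fun _ => 0, ?_, ?_, ?_⟩
  · intro j n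
    refine Fin.addCases (fun i => ?_) (fun i => ?_) j
    · rw [Fin.append_left]
      have h2 : ‖c (e.symm i)‖ ≤ ∑ i ∈ s, ‖c i‖ :=
        single_le_sum (f := fun i => ‖c i‖) (fun _ _ => norm_nonneg _) (e.symm i).2
      push_cast
      have h3 : (0 : ℝ) ≤ m := Nat.cast_nonneg m
      show ‖c (e.symm i)‖ ≤ _
      linarith
    · rw [Fin.append_right, norm_zero]
      positivity
  · intro j n hn
    refine Fin.addCases (fun i => ?_) (fun i => ?_) j
    · simp only [Fin.append_left, sub_self, norm_zero]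
      positivity
    · simp only [Fin.append_right, sub_self, norm_zero]
      positivity
  · have h0 : 1 ≤ Real.log X := hX₀ X hX
    have h2 : ∀ n ∈ range X, 1 / ((n : ℝ) + 1) * ‖b n - ∑ j, (Fin.append (fun i (_ : ℕ) => c (e.symm i))
        (fun _ _ => 0) : Fin (m + M) → ℕ → ℂ) j n *
        ee (((Fin.append (fun i => P (e.symm i)) (fun _ => 0) : Fin (m + M) → Polynomial ℝ) j).eval (n : ℝ) +
          (fun _ : Fin (m + M) => (0 : ℝ)) j * n)‖ ≤ 1 / ((n : ℝ) + 1) * (ε / 2) := by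
      intro n _
      apply mul_le_mul_of_nonneg_left _ (by positivity)
      refine le_trans (le_of_eq ?_) (h1 n)
      congr 2
      rw [Fin.sum_univ_add]
      simp only [Fin.append_left, Fin.append_right, zero_mul, add_zero, sum_const_zero]
      rw [← Finset.sum_coe_sort s (fun i => c i * ee ((P i).eval (n : ℝ)))]
      exact Fintype.sum_equiv e.symm _ _ (fun i => rfl)
    refine (sum_le_sum h2).trans ?_
    rw [← sum_mul]
    have h3 := harm_range X
    have h4 : (∑ n ∈ range X, 1 / ((n : ℝ) + 1)) * (ε / 2) ≤ (1 + Real.log X) * (ε / 2) :=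
      mul_le_mul_of_nonneg_right h3 (by positivity)
    nlinarith

/-- characters of the torus along polynomial sequences -/
lemma mF_poly {d : ℕ} (k : Fin d → ℤ) (P : Fin d → Polynomial ℝ) (n : ℕ) :
    UnitAddTorus.mFourier k (fun i => (((P i).eval (n : ℝ) : ℝ) : UnitAddCircle)) =
      ee ((∑ i, (k i : ℝ) • P i).eval (n : ℝ)) := by
  have h1 : ∀ s : Finset (Fin d), ∏ i ∈ s, fourier (k i) (((P i).eval (n : ℝ) : ℝ) : UnitAddCircle) =
      ee ((∑ i ∈ s, (k i : ℝ) • P i).eval (n : ℝ)) := by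
    intro s
    classical
    induction s using Finset.induction_on with
    | empty => simp [ee]
    | insert i s hi ih =>
      rw [prod_insert hi, sum_insert hi, ih, Polynomial.eval_add, c_ee_add]
      congr 1
      rw [fourier_coe_apply, Polynomial.eval_smul, smul_eq_mul]
      unfold ee
      congr 1
      push_cast
      ring
  exact h1 univ

/-- polynomial orbits on tori -/
theorem polyAP_torus {d : ℕ} (x : ℕ → UnitAddTorus (Fin d)) (P : Fin d → Polynomial ℝ)
    (hx : ∀ n i, x n i = (((P i).eval (n : ℝ) : ℝ) : UnitAddCircle)) (f : C(UnitAddTorus (Fin d), ℂ)) :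
    PolyAP (fun n => f (x n)) := by
  apply polyAP_fin
  intro ε hε
  have h1 : f ∈ (Submodule.span ℂ (Set.range (UnitAddTorus.mFourier (d := Fin d)))).topologicalClosure := by
    rw [UnitAddTorus.span_mFourier_closure_eq_top]
    trivial
  have h2 : f ∈ closure ((Submodule.span ℂ (Set.range (UnitAddTorus.mFourier (d := Fin d))) :
      Submodule ℂ C(UnitAddTorus (Fin d), ℂ)) : Set C(UnitAddTorus (Fin d), ℂ)) := h1
  rw [Metric.mem_closure_iff] at h2
  obtain ⟨g, hg, hd⟩ := h2 ε hε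
  have h3 : ∃ (s : Finset ℕ) (c : ℕ → ℂ) (Q : ℕ → Polynomial ℝ),
      ∀ n, g (x n) = ∑ i ∈ s, c i * ee ((Q i).eval (n : ℝ)) := by
    have hg' : g ∈ Submodule.span ℂ (Set.range (UnitAddTorus.mFourier (d := Fin d))) := hg
    clear hd hg
    induction hg' using Submodule.span_induction with
    | mem g hg =>
      obtain ⟨k, rfl⟩ := hg
      refine ⟨{0}, fun _ => 1, fun _ => ∑ i, (k i : ℝ) • P i, fun n => ?_⟩
      rw [sum_singleton, one_mul, ← mF_poly]
      congr 1
      funext i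
      exact hx n i
    | zero => exact ⟨∅, fun _ => 0, fun _ => 0, fun n => by simp⟩
    | add g₁ g₂ _ _ ih₁ ih₂ =>
      obtain ⟨s₁, c₁, Q₁, h₁⟩ := ih₁
      obtain ⟨s₂, c₂, Q₂, h₂⟩ := ih₂
      refine ⟨s₁.image (fun i => 2 * i) ∪ s₂.image (fun i => 2 * i + 1),
        fun i => if i % 2 = 0 then c₁ (i / 2) else c₂ (i / 2),
        fun i => if i % 2 = 0 then Q₁ (i / 2) else Q₂ (i / 2), fun n => ?_⟩
      have hdis : Disjoint (s₁.image (fun i => 2 * i)) (s₂.image (fun i => 2 * i + 1)) := by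
        rw [Finset.disjoint_left]
        intro a ha hb
        obtain ⟨i, -, hi⟩ := mem_image.1 ha
        obtain ⟨j, -, hj⟩ := mem_image.1 hb
        omega
      rw [sum_union hdis, sum_image (fun i _ j _ h => by simpa using h), sum_image (fun i _ j _ h => by simpa using h)]
      rw [ContinuousMap.add_apply, h₁ n, h₂ n]
      congr 1
      · refine sum_congr rfl fun i _ => ?_
        have e1 : (2 * i) % 2 = 0 := by omega
        have e2 : (2 * i) / 2 = i := by omega
        simp only [e1, e2, if_true]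
      · refine sum_congr rfl fun i _ => ?_
        have e1 : ¬ (2 * i + 1) % 2 = 0 := by omega
        have e2 : (2 * i + 1) / 2 = i := by omega
        simp only [e1, e2, if_false]
    | smul a g₁ _ ih₁ =>
      obtain ⟨s₁, c₁, Q₁, h₁⟩ := ih₁
      refine ⟨s₁, fun i => a * c₁ i, Q₁, fun n => ?_⟩
      rw [ContinuousMap.smul_apply, h₁ n, smul_eq_mul, mul_sum]
      refine sum_congr rfl fun i _ => ?_
      ring
  obtain ⟨s, c, Q, h4⟩ := h3
  refine ⟨s, c, Q, fun n => ?_⟩
  rw [← h4 n]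
  have h5 := (f - g).norm_coe_le_norm (x n)
  rw [dist_eq_norm] at hd
  exact h5.trans hd.le

end Pool.Agent.Y842.CY
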