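import Pool.Agent.Y842.CY.All

/-!
Library Y842.CY (helper842), part 4: logarithmic averages.
-/

set_option autoImplicit false

open Finset Filter Topology

namespace Pool.Agent.Y842.CY

open Pool.Agent.Y842.CX
open Pool.Agent.Y842.PG (harm_le sq_le sum_shift)
open Pool.Agent.Helper602.MK (ee)
open Pool.Agent.Helper602.MK.N_J1c (c_ee_add c_ee_int c_norm_ee)

/-- logarithmic averages -/
noncomputable def logw (X n : ℕ) : ℝ := if n < X then 1 / (((n : ℝ) + 1) * Real.log X) else 0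

lemma harm_range (X : ℕ) : ∑ n ∈ range X, 1 / ((n : ℝ) + 1) ≤ 1 + Real.log X := by
  have h1 := harm_le X
  have e : ∑ n ∈ Icc 1 X, (1 : ℝ) / n = ∑ n ∈ range X, 1 / ((n : ℝ) + 1) := by
    rw [range_eq_Ico]
    have := sum_Ico_add' (fun n : ℕ => (1 : ℝ) / n) 0 X 1
    rw [show (Icc 1 X : Finset ℕ) = Ico (0 + 1) (X + 1) from rfl, ← this]
    refine sum_congr rfl fun n _ => ?_
    push_cast
    rfl
  rw [e] at h1
  exact h1

lemma logw_wt (X : ℕ) (hX : 1 ≤ Real.log X) : Wt (logw X) X 2 (2 / Real.log X) := by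
  have h0 : 0 < Real.log X := by linarith
  have hnn : ∀ n, 0 ≤ logw X n := by
    intro n
    unfold logw
    split_ifs
    · positivity
    · exact le_rfl
  have hX0 : 0 < X := by
    rcases Nat.eq_zero_or_pos X with h | h
    · subst h
      simp at h0
    · exact h
  have hanti : ∀ n, logw X (n + 1) ≤ logw X n := by
    intro n
    unfold logw
    split_ifs with h1 h2 h2
    · apply one_div_le_one_div_of_le (by positivity)
      apply mul_le_mul_of_nonneg_right _ h0.le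
      push_cast
      linarith
    · omega
    · positivity
    · exact le_rfl
  refine ⟨hnn, fun n hn => ?_, ?_, ?_⟩
  · unfold logw
    rw [if_neg (by omega)]
  · have e : ∑ n ∈ range X, logw X n = (∑ n ∈ range X, 1 / ((n : ℝ) + 1)) / Real.log X := by
      rw [sum_div]
      refine sum_congr rfl fun n hn => ?_
      unfold logw
      rw [if_pos (mem_range.1 hn)]
      field_simp
    rw [e, div_le_iff₀ h0]
    have := harm_range X
    linarith
  · have e1 : ∑ n ∈ range X, |logw X (n + 1) - logw X n| = logw X 0 := by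
      have e2 : ∀ n ∈ range X, |logw X (n + 1) - logw X n| = logw X n - logw X (n + 1) := by
        intro n _
        rw [abs_sub_comm, abs_of_nonneg (sub_nonneg.2 (hanti n))]
      rw [sum_congr rfl e2, sum_range_sub']
      have e3 : logw X X = 0 := by
        unfold logw
        rw [if_neg (by omega)]
      rw [e3, sub_zero]
    have e4 : logw X 0 = 1 / Real.log X := by
      unfold logw
      rw [if_pos hX0]
      simp
    rw [e1, e4, abs_of_pos (by positivity)]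
    apply le_of_eq
    ring

lemma log_ev (c : ℝ) : ∀ᶠ X : ℕ in atTop, c ≤ Real.log X :=
  (Filter.tendsto_atTop.1 (Real.tendsto_log_atTop.comp tendsto_natCast_atTop_atTop)) c

lemma fam_log : Fam atTop logw (fun X => X) 2 (fun X : ℕ => 2 / Real.log X) := by
  refine ⟨?_, ?_⟩
  · filter_upwards [log_ev 1] with X hX using logw_wt X hX
  · exact (Real.tendsto_log_atTop.comp tendsto_natCast_atTop_atTop).const_div_atTop 2

lemma L_log {V : Type*} [NormedAddCommGroup V] [InnerProductSpace ℂ V] (X : ℕ) (x : ℕ → V) :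
    L (logw X) X x = (1 / (Real.log X : ℂ)) • ∑ n ∈ range X, (1 / ((n : ℂ) + 1)) • x n := by
  unfold L
  rw [smul_sum]
  refine sum_congr rfl fun n hn => ?_
  unfold logw
  rw [if_pos (mem_range.1 hn), smul_smul]
  congr 1
  push_cast
  rw [one_div_mul_one_div, mul_comm]

/-- summation by parts -/
lemma log_abel (a : ℕ → ℂ) (ha : ∀ n, ‖a n‖ ≤ 1) (B : ℕ → ℝ) (X : ℕ) (hB : ∀ N, ‖∑ n ∈ Icc 1 N, a n‖ ≤ B N)
    (ρ : ℕ → ℂ) (J : ℝ) (hρ : ∀ n, ‖ρ n‖ ≤ J) (hρ' : ∀ n < X, ‖ρ (n + 1) - ρ n‖ ≤ J / ((n : ℝ) + 1)) :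
    ‖∑ n ∈ range X, (1 / ((n : ℂ) + 1)) * (ρ n * a n)‖ ≤ 9 * J + 2 * J * ∑ N ∈ Icc 1 X, B N / (N : ℝ) ^ 2 := by
  have hJ : 0 ≤ J := (norm_nonneg _).trans (hρ 0)
  have hn1 : ∀ n : ℕ, ‖((n : ℂ) + 1)‖ = (n : ℝ) + 1 := by
    intro n
    rw [← Nat.cast_succ, Complex.norm_natCast]
    push_cast
    rfl
  have hne : ∀ n : ℕ, ((n : ℂ) + 1) ≠ 0 := fun n => by exact_mod_cast Nat.succ_ne_zero n
  set c : ℕ → ℂ := fun n => ρ n / ((n : ℂ) + 1) with hc
  have e0 : ∑ n ∈ range X, (1 / ((n : ℂ) + 1)) * (ρ n * a n) = ∑ n ∈ range X, c n * a n := by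
    refine sum_congr rfl fun n _ => ?_
    rw [hc]
    show (1 / ((n : ℂ) + 1)) * (ρ n * a n) = ρ n / ((n : ℂ) + 1) * a n
    ring
  rw [e0, abel c a X]
  refine (norm_sub_le _ _).trans ?_
  have h1 : ‖c X * ∑ n ∈ range X, a n‖ ≤ J := by
    rw [norm_mul, hc]
    show ‖ρ X / ((X : ℂ) + 1)‖ * _ ≤ J
    rw [norm_div, hn1]
    have h2 : ‖∑ n ∈ range X, a n‖ ≤ X := by
      refine (norm_sum_le _ _).trans ((sum_le_sum fun n _ => ha n).trans ?_)
      simp
    have hX0 : (0 : ℝ) ≤ X := Nat.cast_nonneg X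
    calc ‖ρ X‖ / ((X : ℝ) + 1) * ‖∑ n ∈ range X, a n‖ ≤ J / ((X : ℝ) + 1) * X := by
          apply mul_le_mul (div_le_div_of_nonneg_right (hρ X) (by positivity)) h2 (norm_nonneg _) (by positivity)
      _ ≤ J := by
          rw [div_mul_eq_mul_div, div_le_iff₀ (by positivity)]
          nlinarith
  have h2 : ‖∑ n ∈ range X, (c (n + 1) - c n) * ∑ m ∈ range (n + 1), a m‖ ≤
      8 * J + 2 * J * ∑ N ∈ Icc 1 X, B N / (N : ℝ) ^ 2 := by
    refine (norm_sum_le _ _).trans ?_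
    have h3 : ∀ n ∈ range X, ‖(c (n + 1) - c n) * ∑ m ∈ range (n + 1), a m‖ ≤
        (fun N : ℕ => 2 * J * (B N / (N : ℝ) ^ 2) + 4 * J * (1 / (N : ℝ) ^ 2)) (n + 1) := by
      intro n hn
      rw [mem_range] at hn
      have hn0 : (0 : ℝ) ≤ n := Nat.cast_nonneg n
      have e1 : c (n + 1) - c n = (ρ (n + 1) - ρ n) / ((n : ℂ) + 1 + 1) - ρ n / (((n : ℂ) + 1) * ((n : ℂ) + 1 + 1)) := by
        rw [hc]
        show ρ (n + 1) / (((n + 1 : ℕ) : ℂ) + 1) - ρ n / ((n : ℂ) + 1) = _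
        have h4 := hne n
        have h5 := hne (n + 1)
        push_cast at h5 ⊢
        field_simp
        ring
      have hn2 : ‖((n : ℂ) + 1 + 1)‖ = (n : ℝ) + 1 + 1 := by
        have := hn1 (n + 1)
        push_cast at this
        exact this
      have h4 : ‖c (n + 1) - c n‖ ≤ 2 * J / ((n : ℝ) + 1) ^ 2 := by
        rw [e1]
        refine (norm_sub_le _ _).trans ?_
        rw [norm_div, norm_div, norm_mul, hn1, hn2]
        have h5 : ‖ρ (n + 1) - ρ n‖ / ((n : ℝ) + 1 + 1) ≤ J / ((n : ℝ) + 1) ^ 2 := by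
          calc ‖ρ (n + 1) - ρ n‖ / ((n : ℝ) + 1 + 1) ≤ J / ((n : ℝ) + 1) / ((n : ℝ) + 1) :=
                div_le_div₀ (by positivity) (hρ' n hn) (by positivity) (by linarith)
            _ = J / ((n : ℝ) + 1) ^ 2 := by
                rw [div_div, sq]
        have h6 : ‖ρ n‖ / (((n : ℝ) + 1) * ((n : ℝ) + 1 + 1)) ≤ J / ((n : ℝ) + 1) ^ 2 := by
          apply div_le_div₀ hJ (hρ n) (by positivity)
          nlinarith
        calc _ ≤ J / ((n : ℝ) + 1) ^ 2 + J / ((n : ℝ) + 1) ^ 2 := add_le_add h5 h6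
          _ = _ := by ring
      have h5 : ‖∑ m ∈ range (n + 1), a m‖ ≤ B (n + 1) + 2 := by
        have h6 := sum_shift a (n + 1)
        have e2 : ∑ m ∈ range (n + 1), a m = ∑ m ∈ Icc 1 (n + 1), a m - (a (n + 1) - a 0) := by
          rw [h6]
          ring
        rw [e2]
        have h7 := norm_sub_le (∑ m ∈ Icc 1 (n + 1), a m) (a (n + 1) - a 0)
        have h8 := norm_sub_le (a (n + 1)) (a 0)
        have h9 := hB (n + 1)
        have h10 := ha (n + 1)
        have h11 := ha 0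
        linarith
      rw [norm_mul]
      calc ‖c (n + 1) - c n‖ * ‖∑ m ∈ range (n + 1), a m‖ ≤ 2 * J / ((n : ℝ) + 1) ^ 2 * (B (n + 1) + 2) :=
            mul_le_mul h4 h5 (norm_nonneg _) (by positivity)
        _ = 2 * J * (B (n + 1) / (((n + 1 : ℕ) : ℝ)) ^ 2) + 4 * J * (1 / (((n + 1 : ℕ) : ℝ)) ^ 2) := by
            push_cast
            ring
    refine (sum_le_sum h3).trans ?_
    rw [range_eq_Ico, sum_Ico_add' (fun N : ℕ => 2 * J * (B N / (N : ℝ) ^ 2) + 4 * J * (1 / (N : ℝ) ^ 2)) 0 X 1]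
    rw [show (Ico (0 + 1) (X + 1) : Finset ℕ) = Icc 1 X from rfl, sum_add_distrib, ← mul_sum, ← mul_sum]
    have h4 := mul_le_mul_of_nonneg_left (sq_le X) (by positivity : 0 ≤ 4 * J)
    linarith
  linarith

/-- close in the logarithmic mean to sums of finitely many polynomial phases -/
def PolyAP (b : ℕ → ℂ) : Prop :=
  ∀ ε : ℝ, 0 < ε → ∃ (J : ℕ) (P : Fin J → Polynomial ℝ) (X₀ : ℕ), ∀ X : ℕ, X₀ ≤ X →
    ∃ (ρ : Fin J → ℕ → ℂ) (α : Fin J → ℝ),
      (∀ j n, ‖ρ j n‖ ≤ J) ∧ (∀ j, ∀ n < X, ‖ρ j (n + 1) - ρ j n‖ ≤ J / ((n : ℝ) + 1)) ∧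
      ∑ n ∈ range X, 1 / ((n : ℝ) + 1) * ‖b n - ∑ j, ρ j n * ee ((P j).eval (n : ℝ) + α j * n)‖ ≤ ε * Real.log X

theorem kills_poly {g : ℕ → ℂ} (hg : ∀ n, ‖g n‖ ≤ 1) (hreal : ∀ n, (starRingEnd ℂ) (g n) = g n)
    (hP : ∀ k : ℕ, 1 ≤ k → ∀ P : Polynomial ℝ, AllPh (fun n => g n * g (n + k) * ee (P.eval (n : ℝ))))
    (b : ℕ → ℂ) (hb : PolyAP b) : Kills g atTop logw (fun X => X) b := by
  intro k hk ε hε
  obtain ⟨J, P, X₀, h1⟩ := hb (ε / 4) (by positivity)
  set ε' : ℝ := ε / (8 * (J + 1) ^ 2) with hε'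
  have hε'0 : 0 < ε' := by positivity
  choose X₁ hX₁ using fun j : Fin J => hP k hk (P j) ε' hε'0
  filter_upwards [log_ev 1, log_ev (36 * (J + 1) ^ 2 / ε), eventually_ge_atTop (X₀ + ∑ j, X₁ j)] with X hX1 hX2 hX3
  have h0 : 0 < Real.log X := by linarith
  obtain ⟨ρ, α, hρ1, hρ2, hρ3⟩ := h1 X (by omega)
  have hff : ∀ n, ‖g n * g (n + k)‖ ≤ 1 := by
    intro n
    rw [norm_mul]
    exact mul_le_one₀ (hg _) (norm_nonneg _) (hg _)
  have hJ : (0 : ℝ) ≤ J := Nat.cast_nonneg J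
  have h2 : ∀ j, ‖∑ n ∈ range X, (1 / ((n : ℂ) + 1)) * (ρ j n * (g n * g (n + k) *
      ee ((P j).eval (n : ℝ) + α j * n)))‖ ≤ 9 * J + 2 * J * (ε' * Real.log X) := by
    intro j
    have hXj : X₁ j ≤ X := by
      have := single_le_sum (f := X₁) (fun _ _ => Nat.zero_le _) (mem_univ j)
      omega
    obtain ⟨B, hB1, hB2⟩ := hX₁ j X hXj
    refine (log_abel (fun n => g n * g (n + k) * ee ((P j).eval (n : ℝ) + α j * n)) (fun n => by
      rw [norm_mul, c_norm_ee, mul_one]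
      exact hff n) B X (fun N => ?_) (ρ j) J (hρ1 j) (hρ2 j)).trans ?_
    · have h3 := hB1 N (α j)
      refine le_trans (le_of_eq ?_) h3
      congr 1
      refine sum_congr rfl fun n _ => ?_
      rw [c_ee_add]
      ring
    · have := mul_le_mul_of_nonneg_left hB2 (by positivity : 0 ≤ 2 * (J : ℝ))
      linarith
  have e1 : ∑ n ∈ range X, (1 / ((n : ℂ) + 1)) • ((starRingEnd ℂ) (g n) * g (n + k) * b n) =
      ∑ j, ∑ n ∈ range X, (1 / ((n : ℂ) + 1)) * (ρ j n * (g n * g (n + k) * ee ((P j).eval (n : ℝ) + α j * n))) +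
      ∑ n ∈ range X, (1 / ((n : ℂ) + 1)) * ((g n * g (n + k)) *
        (b n - ∑ j, ρ j n * ee ((P j).eval (n : ℝ) + α j * n))) := by
    rw [sum_comm, ← sum_add_distrib]
    refine sum_congr rfl fun n _ => ?_
    rw [hreal, smul_eq_mul, mul_sub, mul_sum, mul_sub, ← mul_sum]
    have e2 : ∑ j, ρ j n * (g n * g (n + k) * ee ((P j).eval (n : ℝ) + α j * n)) =
        ∑ j, g n * g (n + k) * (ρ j n * ee ((P j).eval (n : ℝ) + α j * n)) := sum_congr rfl fun j _ => by ring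
    rw [e2]
    ring
  have h3 : ‖∑ n ∈ range X, (1 / ((n : ℂ) + 1)) • ((starRingEnd ℂ) (g n) * g (n + k) * b n)‖ ≤ ε * Real.log X := by
    rw [e1]
    refine (norm_add_le _ _).trans ?_
    have h4 : ‖∑ j, ∑ n ∈ range X, (1 / ((n : ℂ) + 1)) * (ρ j n * (g n * g (n + k) *
        ee ((P j).eval (n : ℝ) + α j * n)))‖ ≤ ε / 2 * Real.log X := by
      refine (norm_sum_le _ _).trans ?_
      refine (sum_le_sum fun j _ => h2 j).trans ?_
      rw [sum_const, card_univ, Fintype.card_fin, nsmul_eq_mul]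
      have h5 : (J : ℝ) * (9 * J) ≤ ε / 4 * Real.log X := by
        have h6 : 36 * ((J : ℝ) + 1) ^ 2 ≤ ε * Real.log X := by
          rw [div_le_iff₀ hε] at hX2
          linarith
        nlinarith
      have h6 : (J : ℝ) * (2 * J * (ε' * Real.log X)) ≤ ε / 4 * Real.log X := by
        have h7 : (J : ℝ) * (2 * J * ε') ≤ ε / 4 := by
          calc (J : ℝ) * (2 * J * ε') = 2 * J ^ 2 * ε' := by ring
            _ ≤ 2 * (J + 1) ^ 2 * ε' := by
                apply mul_le_mul_of_nonneg_right _ hε'0.le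
                have : (J : ℝ) ^ 2 ≤ (J + 1) ^ 2 := pow_le_pow_left₀ hJ (by linarith) 2
                linarith
            _ = ε / 4 := by
                rw [hε']
                field_simp
                ring
        calc (J : ℝ) * (2 * J * (ε' * Real.log X)) = (J : ℝ) * (2 * J * ε') * Real.log X := by ring
          _ ≤ ε / 4 * Real.log X := mul_le_mul_of_nonneg_right h7 h0.le
      linarith
    have h5 : ‖∑ n ∈ range X, (1 / ((n : ℂ) + 1)) * ((g n * g (n + k)) *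
        (b n - ∑ j, ρ j n * ee ((P j).eval (n : ℝ) + α j * n)))‖ ≤ ε / 4 * Real.log X := by
      refine (norm_sum_le _ _).trans (le_trans (sum_le_sum fun n _ => ?_) hρ3)
      have e3 : ‖(1 / ((n : ℂ) + 1))‖ = 1 / ((n : ℝ) + 1) := by
        rw [norm_div, norm_one, ← Nat.cast_succ, Complex.norm_natCast]
        push_cast
        rfl
      rw [norm_mul, e3, norm_mul]
      apply mul_le_mul_of_nonneg_left _ (by positivity)
      calc ‖g n * g (n + k)‖ * ‖b n - ∑ j, ρ j n * ee ((P j).eval (n : ℝ) + α j * n)‖ ≤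
            1 * ‖b n - ∑ j, ρ j n * ee ((P j).eval (n : ℝ) + α j * n)‖ :=
              mul_le_mul_of_nonneg_right (hff n) (norm_nonneg _)
        _ = _ := one_mul _
    nlinarith
  rw [L_log, norm_smul]
  have e2 : ‖(1 / (Real.log X : ℂ))‖ = 1 / Real.log X := by
    rw [norm_div, norm_one, Complex.norm_real, Real.norm_of_nonneg h0.le]
  rw [e2, one_div, inv_mul_le_iff₀ h0]
  linarith

end Pool.Agent.Y842.CY
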