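import Pool.Agent.Y842.CY.Act
import Pool.Agent.Y842.CY.LogW

/-!
Library Y842.CY (helper842), part 7: systems commuting with actions of compact groups.
-/

set_option autoImplicit false

open Finset Filter Topology

namespace Pool.Agent.Y842.CY

open Pool.Agent.Y842.CX
open Pool.Agent.Y842.PG (Flp)
open Pool.Agent.TH823.MRS (ExpoSmall)

section
variable {X K : Type} [TopologicalSpace X] [CompactSpace X] [FirstCountableTopology X] [T2Space X]
  [TopologicalSpace K] [Group K] [IsTopologicalGroup K] [CompactSpace K] [MulAction K X] [ContinuousSMul K X]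
  {ι : Type} {l : Filter ι} {w : ι → ℕ → ℝ} {M : ι → ℕ} {C : ℝ} {τ : ι → ℝ} {u : ℕ → ℂ}

omit [FirstCountableTopology X] [T2Space X] [TopologicalSpace K] [IsTopologicalGroup K] [CompactSpace K]
  [ContinuousSMul K X] in
theorem short_eqv (hF : Fam l w M C τ) (hu : ∀ n, ‖u n‖ ≤ 1) (T : X → X) (hT : Continuous T)
    (hTK : ∀ (k : K) (x : X), T (k • x) = k • T x) (x₀ : X)
    (hinv : ∀ c : C(X, ℂ), (∀ (k : K) (x : X), c (k • x) = c x) → Kills u l w M (fun n => c (T^[n] x₀)))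
    {F : C(X, ℂ)} (hG : Eqv K F) : Short u l w M (fun n => F (T^[n] x₀)) := by
  obtain ⟨J, iJ, dJ, V, D, ⟨j₀, hj⟩, hD, hV⟩ := hG
  have hTm : ∀ (m : ℕ) (k : K) (x : X), T^[m] (k • x) = k • T^[m] x := by
    intro m k
    induction m with
    | zero => intro x; rfl
    | succ m ih =>
      intro x
      rw [Function.iterate_succ_apply', ih, hTK, Function.iterate_succ_apply']
  set R : ℝ := Real.sqrt (∑ j, ‖V j‖ ^ 2) + 1 with hR
  have hR1 : 1 ≤ R := by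
    rw [hR]
    have := Real.sqrt_nonneg (∑ j, ‖V j‖ ^ 2)
    linarith
  have hR0 : 0 < R := by linarith
  set v : ℕ → EuclideanSpace ℂ J := fun n => ((R⁻¹ : ℝ) : ℂ) • WithLp.toLp 2 (fun j => V j (T^[n] x₀)) with hv
  have hv1 : ∀ n, ‖v n‖ ≤ 1 := by
    intro n
    rw [hv]
    show ‖((R⁻¹ : ℝ) : ℂ) • WithLp.toLp 2 (fun j => V j (T^[n] x₀))‖ ≤ 1
    rw [norm_smul, Complex.norm_real, Real.norm_of_nonneg (by positivity), EuclideanSpace.norm_eq]
    rw [inv_mul_le_iff₀ hR0, mul_one]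
    have h1 : Real.sqrt (∑ j, ‖(WithLp.toLp 2 (fun j => V j (T^[n] x₀)) : EuclideanSpace ℂ J) j‖ ^ 2) ≤
        Real.sqrt (∑ j, ‖V j‖ ^ 2) := by
      apply Real.sqrt_le_sqrt
      refine sum_le_sum fun j _ => ?_
      apply pow_le_pow_left₀ (norm_nonneg _)
      exact (V j).norm_coe_le_norm _
    rw [hR]
    linarith
  have hk : ∀ k : ℕ, 1 ≤ k → ∀ ε : ℝ, 0 < ε → ∀ᶠ i in l,
      ‖L (w i) (M i) (fun n => (starRingEnd ℂ) (u n) * u (n + k) * inner ℂ (v n) (v (n + k)))‖ ≤ ε := by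
    intro k hk1 ε hε
    have hTk : Continuous (T^[k]) := hT.iterate k
    set c : C(X, ℂ) := ⟨fun x => ∑ j, V j (T^[k] x) * (starRingEnd ℂ) (V j x), by fun_prop⟩ with hc
    have hcinv : ∀ (g : K) (x : X), c (g • x) = c x := by
      intro g x
      show ∑ j, V j (T^[k] (g • x)) * (starRingEnd ℂ) (V j (g • x)) = ∑ j, V j (T^[k] x) * (starRingEnd ℂ) (V j x)
      rw [hTm]
      exact eqv_inv V D hD hV g _ _
    have h1 := ((hinv c hcinv).smul (((R⁻¹ : ℝ) : ℂ) * ((R⁻¹ : ℝ) : ℂ))) k hk1 ε hε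
    filter_upwards [h1] with i h2
    refine le_trans (le_of_eq ?_) h2
    congr 2
    funext n
    congr 1
    rw [hv]
    show inner ℂ (((R⁻¹ : ℝ) : ℂ) • WithLp.toLp 2 (fun j => V j (T^[n] x₀))) (((R⁻¹ : ℝ) : ℂ) • WithLp.toLp 2 (fun j => V j (T^[n + k] x₀))) = _
    rw [inner_smul_left, inner_smul_right, Complex.conj_ofReal, ← mul_assoc]
    congr 1
    show _ = ∑ j, V j (T^[k] (T^[n] x₀)) * (starRingEnd ℂ) (V j (T^[n] x₀))
    rw [PiLp.inner_apply]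
    refine sum_congr rfl fun j _ => ?_
    rw [← Function.iterate_add_apply, add_comm k n]
    simp [mul_comm]
  have h3 := short_coord hF hu v hv1 hk (fun n => ((R⁻¹ : ℝ) : ℂ) * F (T^[n] x₀)) (fun n H => by
    have e1 : ∑ m ∈ range H, u (n + m) * (((R⁻¹ : ℝ) : ℂ) * F (T^[n + m] x₀)) =
        (∑ m ∈ range H, u (n + m) • v (n + m)) j₀ := by
      rw [hv]
      simp [hj]
    rw [e1]
    exact PiLp.norm_apply_le _ _)
  have h4 := h3.smul hF (R : ℂ)
  have e : (fun n => (R : ℂ) * (((R⁻¹ : ℝ) : ℂ) * F (T^[n] x₀))) = fun n => F (T^[n] x₀) := by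
    funext n
    rw [← mul_assoc, ← Complex.ofReal_mul, mul_inv_cancel₀ hR0.ne', Complex.ofReal_one, one_mul]
  rw [e] at h4
  exact h4

/-- **systems commuting with an action of a compact group** -/
theorem short_act (hF : Fam l w M C τ) (hu : ∀ n, ‖u n‖ ≤ 1) (hK : RepSep K) (T : X → X) (hT : Continuous T)
    (hTK : ∀ (k : K) (x : X), T (k • x) = k • T x) (x₀ : X)
    (hinv : ∀ c : C(X, ℂ), (∀ (k : K) (x : X), c (k • x) = c x) → Kills u l w M (fun n => c (T^[n] x₀)))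
    (F : C(X, ℂ)) : Short u l w M (fun n => F (T^[n] x₀)) := by
  borelize K
  haveI : Nonempty X := ⟨x₀⟩
  apply Short.approx hF hu
  intro ε hε
  obtain ⟨G, hG, hd⟩ := dense_of_sep (K := K) (fun x x' hx => sep_act hK hx) F ε hε
  refine ⟨fun n => G (T^[n] x₀), ?_, fun n => ((F - G).norm_coe_le_norm (T^[n] x₀)).trans hd.le⟩
  clear hd
  induction hG using Submodule.span_induction with
  | mem x hx => exact short_eqv hF hu T hT hTK x₀ hinv hx
  | zero => exact Short.zero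
  | add x y hx hy h3 h4 =>
    have := h3.add hF h4
    exact this
  | smul c x hx h3 =>
    have := h3.smul hF c
    exact this

end

lemma shift_L (X : ℕ) (hX : 1 ≤ Real.log X) (x : ℕ → ℂ) (B : ℝ) (hx : ∀ n, ‖x n‖ ≤ B) (k : ℕ) :
    ‖∑ n ∈ range X, (1 / ((n : ℂ) + 1)) * x (n + k)‖ ≤ ‖∑ n ∈ range X, (1 / ((n : ℂ) + 1)) * x n‖ + 2 * k * B := by
  have h0 : 0 < Real.log X := by linarith
  have h1 := L_shift (logw_wt X hX) x B hx k
  have h2 : ‖L (logw X) X (fun n => x (n + k))‖ ≤ ‖L (logw X) X x‖ + k * (2 / Real.log X * B) := by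
    have := norm_sub_norm_le (L (logw X) X (fun n => x (n + k))) (L (logw X) X x)
    linarith
  rw [L_log, L_log, norm_smul, norm_smul] at h2
  have e2 : ‖(1 / (Real.log X : ℂ))‖ = 1 / Real.log X := by
    rw [norm_div, norm_one, Complex.norm_real, Real.norm_of_nonneg h0.le]
  rw [e2] at h2
  simp only [smul_eq_mul] at h2
  have h3 := mul_le_mul_of_nonneg_left h2 h0.le
  have e3 : Real.log X * (1 / Real.log X * ‖∑ n ∈ range X, (1 / ((n : ℂ) + 1)) * x (n + k)‖) =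
      ‖∑ n ∈ range X, (1 / ((n : ℂ) + 1)) * x (n + k)‖ := by field_simp
  have e4 : Real.log X * (1 / Real.log X * ‖∑ n ∈ range X, (1 / ((n : ℂ) + 1)) * x n‖ + k * (2 / Real.log X * B)) =
      ‖∑ n ∈ range X, (1 / ((n : ℂ) + 1)) * x n‖ + 2 * k * B := by
    field_simp
  rw [e3, e4] at h3
  exact h3

/-- from short intervals to the two conclusions -/
theorem log_of_short {u : ℕ → ℂ} (hu : ∀ n, ‖u n‖ ≤ 1) (b : ℕ → ℂ) (C : ℝ) (hC : 0 ≤ C) (hB : ∀ n, ‖b n‖ ≤ C)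
    (h1 : Short u atTop logw (fun X => X) b) :
    (∀ ε : ℝ, 0 < ε → ∃ N₀ : ℕ, ∀ N : ℕ, N₀ ≤ N → ‖∑ n ∈ Icc 1 N, u n * b n / n‖ ≤ ε * Real.log N) ∧
    (∀ ε : ℝ, 0 < ε → ∃ H₀ : ℕ, ∀ H : ℕ, H₀ ≤ H → ∃ N₀ : ℕ, ∀ N : ℕ, N₀ ≤ N →
      ∑ n ∈ Icc 1 N, ‖∑ m ∈ Icc 1 H, u (n + m) * b (n + m)‖ / n ≤ ε * (H * Real.log N)) := by
  set a : ℕ → ℂ := fun n => u n * b n with ha
  have ha1 : ∀ n, ‖a n‖ ≤ C := by
    intro n
    rw [ha]
    show ‖u n * b n‖ ≤ C
    rw [norm_mul]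
    calc ‖u n‖ * ‖b n‖ ≤ 1 * C := mul_le_mul (hu n) (hB n) (norm_nonneg _) zero_le_one
      _ = C := one_mul _
  have hIcc : ∀ (g : ℕ → ℂ) (N : ℕ), ∑ n ∈ Icc 1 N, g n / n = ∑ n ∈ range N, (1 / ((n : ℂ) + 1)) * g (n + 1) := by
    intro g N
    rw [range_eq_Ico]
    have := sum_Ico_add' (fun n : ℕ => g n / n) 0 N 1
    rw [show (Icc 1 N : Finset ℕ) = Ico (0 + 1) (N + 1) from rfl, ← this]
    refine sum_congr rfl fun n _ => ?_
    push_cast
    ring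
  refine ⟨fun ε hε => ?_, fun ε hε => ?_⟩
  · have h2 := long_of_short fam_log hu C hB h1 (ε / 2) (by positivity)
    obtain ⟨N₀, hN₀⟩ := eventually_atTop.1 (h2.and ((log_ev 1).and (log_ev (4 * C / ε))))
    refine ⟨N₀, fun N hN => ?_⟩
    obtain ⟨h3, h4, h5⟩ := hN₀ N hN
    have h0 : 0 < Real.log N := by linarith
    rw [L_log, norm_smul] at h3
    have e2 : ‖(1 / (Real.log N : ℂ))‖ = 1 / Real.log N := by
      rw [norm_div, norm_one, Complex.norm_real, Real.norm_of_nonneg h0.le]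
    rw [e2, one_div, inv_mul_le_iff₀ h0] at h3
    simp only [smul_eq_mul] at h3
    have h6 := shift_L N h4 a C ha1 1
    rw [div_le_iff₀ hε] at h5
    have e3 : ∑ n ∈ Icc 1 N, u n * b n / n = ∑ n ∈ Icc 1 N, a n / n := rfl
    rw [e3, hIcc]
    have h7 : ‖∑ n ∈ range N, (1 / ((n : ℂ) + 1)) * a n‖ ≤ Real.log N * (ε / 2) := h3
    push_cast at h6
    linarith
  · obtain ⟨H₀, h2⟩ := h1 (ε / 2) (by positivity)
    refine ⟨H₀, fun H hH => ?_⟩
    have hH0 : (0 : ℝ) ≤ H := Nat.cast_nonneg H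
    obtain ⟨N₀, hN₀⟩ := eventually_atTop.1 ((h2 H hH).and ((log_ev 1).and (log_ev (8 * C / ε))))
    refine ⟨N₀, fun N hN => ?_⟩
    obtain ⟨h3, h4, h5⟩ := hN₀ N hN
    have h0 : 0 < Real.log N := by linarith
    set g : ℕ → ℝ := fun n => ‖∑ m ∈ range H, a (n + m)‖ with hg
    have hg0 : ∀ n, 0 ≤ g n := fun n => norm_nonneg _
    have hgB : ∀ n, ‖((g n : ℝ) : ℂ)‖ ≤ H * C := by
      intro n
      rw [Complex.norm_real, Real.norm_of_nonneg (hg0 n), hg]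
      refine (norm_sum_le _ _).trans ?_
      refine (sum_le_sum fun m _ => ha1 _).trans ?_
      rw [sum_const, card_range, nsmul_eq_mul]
    have h6 := shift_L N h4 (fun n => ((g n : ℝ) : ℂ)) (H * C) hgB 2
    have hreal' : ∀ k : ℕ, ‖∑ n ∈ range N, (1 / ((n : ℂ) + 1)) * ((g (n + k) : ℝ) : ℂ)‖ =
        ∑ n ∈ range N, 1 / ((n : ℝ) + 1) * g (n + k) := by
      intro k
      have e : ∑ n ∈ range N, (1 / ((n : ℂ) + 1)) * ((g (n + k) : ℝ) : ℂ) =
          ((∑ n ∈ range N, 1 / ((n : ℝ) + 1) * g (n + k) : ℝ) : ℂ) := by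
        push_cast
        rfl
      rw [e, Complex.norm_real, Real.norm_of_nonneg]
      exact sum_nonneg fun n _ => mul_nonneg (by positivity) (hg0 _)
    rw [hreal' 2] at h6
    have h7 : ‖∑ n ∈ range N, (1 / ((n : ℂ) + 1)) * ((g n : ℝ) : ℂ)‖ = ∑ n ∈ range N, 1 / ((n : ℝ) + 1) * g n :=
      hreal' 0
    have h6' : ∑ n ∈ range N, 1 / ((n : ℝ) + 1) * g (n + 2) ≤
        ∑ n ∈ range N, 1 / ((n : ℝ) + 1) * g n + 4 * (H * C) := by
      rw [← h7]
      refine h6.trans (le_of_eq ?_)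
      push_cast
      ring
    have h8 : ∑ n ∈ range N, 1 / ((n : ℝ) + 1) * g n ≤ ε / 2 * (H * Real.log N) := by
      have e : ∑ n ∈ range N, logw N n * ‖∑ m ∈ range H, u (n + m) * b (n + m)‖ =
          (∑ n ∈ range N, 1 / ((n : ℝ) + 1) * g n) / Real.log N := by
        rw [sum_div]
        refine sum_congr rfl fun n hn => ?_
        unfold logw
        rw [if_pos (mem_range.1 hn), hg]
        show 1 / (((n : ℝ) + 1) * Real.log N) * ‖∑ m ∈ range H, a (n + m)‖ =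
          1 / ((n : ℝ) + 1) * ‖∑ m ∈ range H, a (n + m)‖ / Real.log N
        field_simp
      rw [e, div_le_iff₀ h0] at h3
      linarith
    have e2 : ∑ n ∈ Icc 1 N, ‖∑ m ∈ Icc 1 H, u (n + m) * b (n + m)‖ / n =
        ∑ n ∈ range N, 1 / ((n : ℝ) + 1) * g (n + 2) := by
      rw [range_eq_Ico]
      have := sum_Ico_add' (fun n : ℕ => ‖∑ m ∈ Icc 1 H, u (n + m) * b (n + m)‖ / (n : ℝ)) 0 N 1
      rw [show (Icc 1 N : Finset ℕ) = Ico (0 + 1) (N + 1) from rfl, ← this]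
      refine sum_congr rfl fun n _ => ?_
      have e4 : ∑ m ∈ Icc 1 H, a (n + 1 + m) = ∑ m ∈ range H, a (n + 2 + m) := by
        have e5 : ∑ m ∈ Icc 1 H, a (n + 1 + m) = ∑ m ∈ range H, a (n + 1 + (m + 1)) := by
          rw [range_eq_Ico, sum_Ico_add' (fun m => a (n + 1 + m)) 0 H 1]
          rfl
        rw [e5]
        refine sum_congr rfl fun m _ => ?_
        congr 1
        ring
      show ‖∑ m ∈ Icc 1 H, a (n + 1 + m)‖ / ((n + 1 : ℕ) : ℝ) = 1 / ((n : ℝ) + 1) * ‖∑ m ∈ range H, a (n + 2 + m)‖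
      rw [e4]
      push_cast
      ring
    rw [e2]
    rw [div_le_iff₀ hε] at h5
    have h9 : (H : ℝ) * (8 * C) ≤ H * (Real.log N * ε) := mul_le_mul_of_nonneg_left h5 hH0
    nlinarith

/-- **the logarithmic theorem** -/
theorem main_log {u : ℕ → ℂ} (hu : ∀ n, ‖u n‖ ≤ 1) (hreal : ∀ n, (starRingEnd ℂ) (u n) = u n)
    (hm : ∀ m n : ℕ, Nat.Coprime m n → u (m * n) = u m * u n) (hE : ExpoSmall u) (hf : ∀ p : ℕ, p.Prime → Flp u p)
    {X K : Type} [TopologicalSpace X] [CompactSpace X] [FirstCountableTopology X] [T2Space X]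
    [TopologicalSpace K] [Group K] [IsTopologicalGroup K] [CompactSpace K] [MulAction K X] [ContinuousSMul K X]
    (hK : RepSep K) (T : X → X) (hT : Continuous T) (hTK : ∀ (k : K) (x : X), T (k • x) = k • T x) (x₀ : X)
    (hinv : ∀ c : C(X, ℂ), (∀ (k : K) (x : X), c (k • x) = c x) → PolyAP (fun n => c (T^[n] x₀))) (F : C(X, ℂ)) :
    (∀ ε : ℝ, 0 < ε → ∃ N₀ : ℕ, ∀ N : ℕ, N₀ ≤ N → ‖∑ n ∈ Icc 1 N, u n * F (T^[n] x₀) / n‖ ≤ ε * Real.log N) ∧
    (∀ ε : ℝ, 0 < ε → ∃ H₀ : ℕ, ∀ H : ℕ, H₀ ≤ H → ∃ N₀ : ℕ, ∀ N : ℕ, N₀ ≤ N →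
      ∑ n ∈ Icc 1 N, ‖∑ m ∈ Icc 1 H, u (n + m) * F (T^[n + m] x₀)‖ / n ≤ ε * (H * Real.log N)) := by
  have h1 : Short u atTop logw (fun X => X) (fun n => F (T^[n] x₀)) :=
    short_act fam_log hu hK T hT hTK x₀ (fun c hc => kills_poly hu hreal
      (fun k hk P => allPh_poly hu hm hE hf k hk P.natDegree P le_rfl) _ (hinv c hc)) F
  exact log_of_short hu _ ‖F‖ (norm_nonneg _) (fun n => F.norm_coe_le_norm _) h1

end Pool.Agent.Y842.CY
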