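import Pool.Agent.Y842.CY.PP
import Pool.Agent.Y842.CX.Vdc
import Pool.Agent.Y842.PG.Ell

/-!
Library Y842.CY (helper842), part 2: products of multiplicative functions and polynomial phases.
-/

set_option autoImplicit false

open Finset

namespace Pool.Agent.Y842.CY

open Pool.Agent.Y842.CX
open Pool.Agent.Y842.PG (minor_all harm_le sq_le)
open Pool.Agent.Helper602.MK (ee)
open Pool.Agent.Helper602.MK.N_J1c (c_ee_add c_ee_int c_norm_ee)

lemma c_ee_sub (a b : ℝ) : ee (a - b) = ee a * (starRingEnd ℂ) (ee b) := by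
  have h1 : ee (a - b) * ee b = ee a := by
    rw [← c_ee_add]
    congr 1
    ring
  have h2 : ee b * (starRingEnd ℂ) (ee b) = 1 := by
    rw [Complex.mul_conj, Complex.normSq_eq_norm_sq, c_norm_ee]
    norm_num
  rw [← h1, mul_assoc, h2, mul_one]

/-- weights of partial sums -/
noncomputable def pw (N y n : ℕ) : ℝ := if n < y then 1 / (N : ℝ) else 0

lemma pw_wt (N y : ℕ) (hN : 1 ≤ N) (hy : y ≤ N) : Wt (pw N y) y 1 (2 / N) := by
  have hN0 : (0 : ℝ) < N := by exact_mod_cast hN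
  refine ⟨fun n => ?_, fun n hn => ?_, ?_, ?_⟩
  · unfold pw
    split_ifs
    · positivity
    · exact le_rfl
  · unfold pw
    rw [if_neg (by omega)]
  · have e : ∑ n ∈ range y, pw N y n = ∑ n ∈ range y, 1 / (N : ℝ) :=
      sum_congr rfl fun n hn => by
        unfold pw
        rw [if_pos (mem_range.1 hn)]
    rw [e, sum_const, card_range, nsmul_eq_mul, mul_one_div, div_le_one hN0]
    exact_mod_cast hy
  · rcases Nat.eq_zero_or_pos y with h0 | h0
    · subst h0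
      simp only [range_zero, sum_empty, add_zero]
      unfold pw
      rw [if_neg (by omega), abs_zero]
      positivity
    obtain ⟨K, rfl⟩ : ∃ K, y = K + 1 := ⟨y - 1, by omega⟩
    rw [sum_range_succ]
    have e1 : ∑ n ∈ range K, |pw N (K + 1) (n + 1) - pw N (K + 1) n| = 0 := by
      refine sum_eq_zero fun n hn => ?_
      rw [mem_range] at hn
      unfold pw
      rw [if_pos (by omega), if_pos (by omega), sub_self, abs_zero]
    have e2 : |pw N (K + 1) (K + 1) - pw N (K + 1) K| = 1 / (N : ℝ) := by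
      unfold pw
      rw [if_neg (by omega), if_pos (by omega), zero_sub, abs_neg, abs_of_pos (by positivity)]
    have e3 : |pw N (K + 1) 0| = 1 / (N : ℝ) := by
      unfold pw
      rw [if_pos (by omega), abs_of_pos (by positivity)]
    rw [e1, e2, e3]
    apply le_of_eq
    ring

lemma L_pw (N y : ℕ) (b : ℕ → ℂ) : L (pw N y) y (fun n => b (n + 1)) = (1 / (N : ℂ)) * ∑ n ∈ Icc 1 y, b n := by
  have e : ∑ n ∈ Icc 1 y, b n = ∑ n ∈ range y, b (n + 1) := by
    rw [range_eq_Ico, sum_Ico_add' b 0 y 1]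
    rfl
  rw [e, mul_sum]
  unfold L
  refine sum_congr rfl fun n hn => ?_
  unfold pw
  rw [if_pos (mem_range.1 hn), smul_eq_mul]
  push_cast
  rfl

/-- van der Corput for partial sums -/
lemma vdc_part (N y H : ℕ) (hN : 1 ≤ N) (hy : y ≤ N) (hH : 1 ≤ H) (b : ℕ → ℂ) (hb : ∀ n, ‖b n‖ ≤ 1) (δ : ℝ)
    (hδ : 0 < δ) :
    ‖∑ n ∈ Icc 1 y, b n‖ / (N : ℝ) ^ 2 ≤ (δ / 2 + 1 / (2 * δ * H)) * (1 / (N : ℝ)) +
      (H / δ + 2 * H) * (1 / (N : ℝ) ^ 2) +
      1 / (2 * δ) * ∑ m ∈ Ico 1 H, ‖∑ n ∈ Icc 1 y, (starRingEnd ℂ) (b n) * b (n + m)‖ / (N : ℝ) ^ 2 := by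
  have hN0 : (0 : ℝ) < N := by exact_mod_cast hN
  have hH0 : (0 : ℝ) < H := by exact_mod_cast hH
  have hw := pw_wt N y hN hy
  set x : ℕ → ℂ := fun n => b (n + 1) with hx
  have hx1 : ∀ n, ‖x n‖ ≤ 1 := fun n => hb _
  have h1 := vdc hw x hx1 H
  have h2 := vdc_norm hw x hx1 H
  set D : ℝ := ∑ j ∈ Ico 1 H, ‖L (pw N y) y (cr x j)‖ with hD
  have hD0 : 0 ≤ D := sum_nonneg fun _ _ => norm_nonneg _
  have h3 : Real.sqrt (1 * Qs (pw N y) y H x) ≤ H * Real.sqrt (1 / H + D + 2 * H / N) := by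
    rw [one_mul]
    have e1 : (H : ℝ) * Real.sqrt (1 / H + D + 2 * H / N) = Real.sqrt (H ^ 2 * (1 / H + D + 2 * H / N)) := by
      rw [Real.sqrt_mul (by positivity), Real.sqrt_sq hH0.le]
    rw [e1]
    apply Real.sqrt_le_sqrt
    refine h1.trans (le_of_eq ?_)
    field_simp
    ring
  have h4 : Real.sqrt (1 / H + D + 2 * H / N) ≤ δ / 2 + (1 / H + D + 2 * H / N) / (2 * δ) := by
    set Z : ℝ := 1 / H + D + 2 * H / N with hZ
    have hZ0 : 0 ≤ Z := by positivity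
    have e1 := Real.sq_sqrt hZ0
    have e2 : 0 ≤ (δ - Real.sqrt Z) ^ 2 := sq_nonneg _
    have e3 : δ / 2 + Z / (2 * δ) = (δ ^ 2 + Z) / (2 * δ) := by
      field_simp
    rw [e3, le_div_iff₀ (by positivity)]
    nlinarith
  have h5 : ‖L (pw N y) y x‖ ≤ δ / 2 + (1 / H + D + 2 * H / N) / (2 * δ) + 2 * H / N := by
    have e1 : (H : ℝ) * ‖L (pw N y) y x‖ ≤
        H * (δ / 2 + (1 / H + D + 2 * H / N) / (2 * δ) + 2 * H / N) := by
      refine h2.trans ?_
      have e2 : (H : ℝ) ^ 2 * (2 / N) = H * (2 * H / N) := by ring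
      rw [e2, mul_add]
      exact add_le_add (h3.trans (mul_le_mul_of_nonneg_left h4 hH0.le)) le_rfl
    exact le_of_mul_le_mul_left e1 hH0
  have e1 : ‖L (pw N y) y x‖ = ‖∑ n ∈ Icc 1 y, b n‖ / N := by
    rw [hx, L_pw, norm_mul, norm_div, norm_one, Complex.norm_natCast]
    ring
  have e2 : D = ∑ m ∈ Ico 1 H, ‖∑ n ∈ Icc 1 y, (starRingEnd ℂ) (b n) * b (n + m)‖ / N := by
    rw [hD]
    refine sum_congr rfl fun m _ => ?_
    have e3 : cr x m = fun n => (fun n => (starRingEnd ℂ) (b n) * b (n + m)) (n + 1) := by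
      funext n
      unfold cr
      rw [hx]
      show inner ℂ (b (n + 1)) (b (n + m + 1)) = (starRingEnd ℂ) (b (n + 1)) * b (n + 1 + m)
      rw [show n + m + 1 = n + 1 + m by ring]
      simp [mul_comm]
    rw [e3, L_pw N y (fun n => (starRingEnd ℂ) (b n) * b (n + m)), norm_mul, norm_div, norm_one,
      Complex.norm_natCast]
    ring
  rw [e1] at h5
  have h6 : ‖∑ n ∈ Icc 1 y, b n‖ / (N : ℝ) ^ 2 = ‖∑ n ∈ Icc 1 y, b n‖ / N * (1 / N) := by
    field_simp
  rw [h6]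
  refine (mul_le_mul_of_nonneg_right h5 (by positivity)).trans (le_of_eq ?_)
  have h7 : ∑ m ∈ Ico 1 H, ‖∑ n ∈ Icc 1 y, (starRingEnd ℂ) (b n) * b (n + m)‖ / (N : ℝ) ^ 2 = D * (1 / N) := by
    rw [e2, sum_mul]
    refine sum_congr rfl fun m _ => ?_
    field_simp
  rw [h7]
  field_simp
  ring

/-- **products of multiplicative functions and polynomial phases with minor leading coefficients** -/
theorem poly_minor (j : ℕ) : ∀ {r : ℕ}, 1 ≤ r → ∀ (hs : Fin r → ℕ) (ε : ℝ), 0 < ε →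
    ∃ R X₀ : ℕ, ∀ X : ℕ, X₀ ≤ X → ∀ g : Fin r → ℕ → ℂ, (∀ t n, ‖g t n‖ ≤ 1) →
      (∀ t, ∀ m n : ℕ, Nat.Coprime m n → g t (m * n) = g t m * g t n) →
      ∀ (θ : ℕ → ℝ) (φ : ℕ → ℕ → ℝ) (y : ℕ → ℕ), (∀ N, y N ≤ N) → ∀ E : Finset ℕ, E ⊆ Icc 1 X →
        (∀ N ∈ E, PP j (θ N) (φ N)) →
        (∀ N ∈ E, ∀ q : ℕ, 1 ≤ q → q ≤ R → ∀ A : ℤ, (R : ℝ) ≤ |θ N - A / q| * N) →
        ∑ N ∈ E, ‖∑ n ∈ Icc 1 (y N), (∏ t, g t (n + hs t)) * ee (φ N n)‖ / (N : ℝ) ^ 2 ≤
          ε * Real.log X := by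
  induction j with
  | zero =>
    intro r hr hs ε hε
    obtain ⟨R, X₀, h⟩ := minor_all hr hs ε hε
    refine ⟨R, X₀, fun X hX g hg hm θ φ y hy E hE hφ hθ => ?_⟩
    have h1 := h X hX g hg hm θ y hy E hE hθ
    refine le_trans (le_of_eq (sum_congr rfl fun N hN => ?_)) h1
    obtain ⟨c, hc⟩ := hφ N hN
    have e1 : ∑ n ∈ Icc 1 (y N), (∏ t, g t (n + hs t)) * ee (φ N n) =
        (∑ n ∈ Icc 1 (y N), (∏ t, g t (n + hs t)) * ee (θ N * n)) * ee c := by
      rw [sum_mul]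
      refine sum_congr rfl fun n _ => ?_
      rw [hc, c_ee_add]
      ring
    rw [e1, norm_mul, c_norm_ee, mul_one]
  | succ j ih =>
    intro r hr hs ε hε
    set δ : ℝ := ε / 4 with hδ
    have hδ0 : 0 < δ := by positivity
    obtain ⟨H, hH⟩ := exists_nat_ge (8 / ε ^ 2 + 1)
    have hH1 : 1 ≤ H := by
      have : (1 : ℝ) ≤ H := by
        have : 0 < 8 / ε ^ 2 := by positivity
        linarith
      exact_mod_cast this
    have hH0 : (0 : ℝ) < H := by exact_mod_cast hH1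
    have hHε : 1 / (2 * δ * H) ≤ ε / 4 := by
      rw [div_le_div_iff₀ (by positivity) (by norm_num)]
      have h1 : 8 / ε ^ 2 ≤ H := by linarith
      rw [div_le_iff₀ (by positivity)] at h1
      have e1 : ε * (2 * δ * H) = (H * ε ^ 2) / 2 := by
        rw [hδ]
        ring
      rw [e1]
      linarith
    set hs' : ℕ → Fin (r + r) → ℕ := fun m => Fin.append (fun t => hs t) (fun t => m + hs t) with hhs'
    have hex : ∀ m : ℕ, ∃ R X₀ : ℕ, ∀ X : ℕ, X₀ ≤ X → ∀ g : Fin (r + r) → ℕ → ℂ, (∀ t n, ‖g t n‖ ≤ 1) →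
      (∀ t, ∀ m n : ℕ, Nat.Coprime m n → g t (m * n) = g t m * g t n) →
      ∀ (θ : ℕ → ℝ) (φ : ℕ → ℕ → ℝ) (y : ℕ → ℕ), (∀ N, y N ≤ N) → ∀ E : Finset ℕ, E ⊆ Icc 1 X →
        (∀ N ∈ E, PP j (θ N) (φ N)) →
        (∀ N ∈ E, ∀ q : ℕ, 1 ≤ q → q ≤ R → ∀ A : ℤ, (R : ℝ) ≤ |θ N - A / q| * N) →
        ∑ N ∈ E, ‖∑ n ∈ Icc 1 (y N), (∏ t, g t (n + hs' m t)) * ee (φ N n)‖ / (N : ℝ) ^ 2 ≤
          ε ^ 2 / (16 * H) * Real.log X := fun m => ih (by omega) (hs' m) _ (by positivity)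
    choose R' X' hRX using hex
    obtain ⟨X₂, hX₂⟩ := Filter.eventually_atTop.1 ((Filter.tendsto_atTop.1
      (Real.tendsto_log_atTop.comp tendsto_natCast_atTop_atTop)) (16 * (H / δ + 2 * H) / ε + 8))
    refine ⟨H * (∑ m ∈ range H, R' m + 1), ∑ m ∈ range H, X' m + X₂, fun X hX g hg hm θ φ y hy E hE hφ hθ => ?_⟩
    have hlog : 16 * (H / δ + 2 * H) / ε + 8 ≤ Real.log X := hX₂ X (by omega)
    have hlogc : 2 * (H / δ + 2 * H) ≤ ε / 8 * Real.log X := by
      have h1 : 16 * (H / δ + 2 * H) / ε ≤ Real.log X := by linarith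
      rw [div_le_iff₀ hε] at h1
      linarith
    have hpos : 0 < 16 * (H / δ + 2 * H) / ε := by positivity
    have hlog1 : (8 : ℝ) ≤ Real.log X := by linarith
    -- the correlations
    have hcor : ∀ m ∈ Ico 1 H, ∑ N ∈ E, ‖∑ n ∈ Icc 1 (y N),
        (starRingEnd ℂ) ((∏ t, g t (n + hs t)) * ee (φ N n)) *
          ((∏ t, g t (n + m + hs t)) * ee (φ N (n + m)))‖ / (N : ℝ) ^ 2 ≤ ε ^ 2 / (16 * H) * Real.log X := by
      intro m hmH
      rw [mem_Ico] at hmH
      have hmem : m ∈ range H := mem_range.2 hmH.2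
      have hR1 : R' m ≤ ∑ m ∈ range H, R' m := single_le_sum (fun _ _ => Nat.zero_le _) hmem
      have hX1 : X' m ≤ ∑ m ∈ range H, X' m := single_le_sum (fun _ _ => Nat.zero_le _) hmem
      have h1 := hRX m X (by omega)
        (Fin.append (fun t n => (starRingEnd ℂ) (g t n)) (fun t n => g t n)) (fun t n => by
          refine Fin.addCases (fun t => ?_) (fun t => ?_) t
          · rw [Fin.append_left, RCLike.norm_conj]
            exact hg t n
          · rw [Fin.append_right]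
            exact hg t n) (fun t a b hab => by
          refine Fin.addCases (fun t => ?_) (fun t => ?_) t
          · simp only [Fin.append_left]
            rw [hm t a b hab, map_mul]
          · simp only [Fin.append_right]
            exact hm t a b hab) (fun N => θ N * m) (fun N n => φ N (n + m) - φ N n) y hy E hE
        (fun N hN => hφ N hN m) (fun N hN q hq1 hqR A => by
          have hm0 : (0 : ℝ) < m := by exact_mod_cast (by omega : 0 < m)
          have hq0 : (0 : ℝ) < q := by exact_mod_cast hq1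
          have h2 := hθ N hN (q * m) (by nlinarith) (by
            calc q * m ≤ (∑ m ∈ range H, R' m + 1) * H := Nat.mul_le_mul (by omega) (by omega)
              _ = H * (∑ m ∈ range H, R' m + 1) := by ring) A
          have e1 : θ N * m - A / q = m * (θ N - A / ((q * m : ℕ) : ℝ)) := by
            push_cast
            field_simp
          have hN0 : (0 : ℝ) ≤ N := Nat.cast_nonneg N
          rw [e1, abs_mul, abs_of_pos hm0, mul_assoc]
          have h3 : (R' m : ℝ) ≤ ((H * (∑ m ∈ range H, R' m + 1) : ℕ) : ℝ) := by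
            exact_mod_cast (by nlinarith : R' m ≤ H * (∑ m ∈ range H, R' m + 1))
          have h4 : (1 : ℝ) ≤ m := by exact_mod_cast hmH.1
          have h5 : 0 ≤ |θ N - A / ((q * m : ℕ) : ℝ)| * N := by positivity
          nlinarith)
      refine le_trans (le_of_eq (sum_congr rfl fun N _ => ?_)) h1
      congr 2
      refine sum_congr rfl fun n _ => ?_
      rw [Fin.prod_univ_add]
      simp only [hhs', Fin.append_left, Fin.append_right]
      rw [map_mul, map_prod, c_ee_sub]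
      have e2 : ∏ t, g t (n + m + hs t) = ∏ t, g t (n + (m + hs t)) :=
        prod_congr rfl fun t _ => by rw [add_assoc]
      rw [e2]
      ring
    have hE1 : ∑ N ∈ E, (1 : ℝ) / N ≤ 1 + Real.log X :=
      (sum_le_sum_of_subset_of_nonneg hE fun N _ _ => by positivity).trans (harm_le X)
    have hE2 : ∑ N ∈ E, (1 : ℝ) / (N : ℝ) ^ 2 ≤ 2 :=
      (sum_le_sum_of_subset_of_nonneg hE fun N _ _ => by positivity).trans (sq_le X)
    have hmain : ∀ N ∈ E, ‖∑ n ∈ Icc 1 (y N), (∏ t, g t (n + hs t)) * ee (φ N n)‖ / (N : ℝ) ^ 2 ≤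
        (δ / 2 + 1 / (2 * δ * H)) * (1 / (N : ℝ)) + (H / δ + 2 * H) * (1 / (N : ℝ) ^ 2) +
        1 / (2 * δ) * ∑ m ∈ Ico 1 H, ‖∑ n ∈ Icc 1 (y N),
          (starRingEnd ℂ) ((∏ t, g t (n + hs t)) * ee (φ N n)) *
          ((∏ t, g t (n + m + hs t)) * ee (φ N (n + m)))‖ / (N : ℝ) ^ 2 := by
      intro N hN
      exact vdc_part N (y N) H (mem_Icc.1 (hE hN)).1 (hy N) hH1 (fun n => (∏ t, g t (n + hs t)) * ee (φ N n))
        (fun n => by
          rw [norm_mul, c_norm_ee, mul_one, norm_prod]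
          exact prod_le_one (fun _ _ => norm_nonneg _) (fun t _ => hg t _)) δ hδ0
    refine (sum_le_sum hmain).trans ?_
    rw [sum_add_distrib, sum_add_distrib, ← mul_sum, ← mul_sum, ← mul_sum, sum_comm]
    have h6 := sum_le_sum hcor
    rw [sum_const, Nat.card_Ico, nsmul_eq_mul] at h6
    have h7 : ((H - 1 : ℕ) : ℝ) * (ε ^ 2 / (16 * H) * Real.log X) ≤ ε ^ 2 / 16 * Real.log X := by
      have h8 : ((H - 1 : ℕ) : ℝ) ≤ H := by exact_mod_cast Nat.sub_le H 1
      calc ((H - 1 : ℕ) : ℝ) * (ε ^ 2 / (16 * H) * Real.log X) ≤ H * (ε ^ 2 / (16 * H) * Real.log X) :=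
            mul_le_mul_of_nonneg_right h8 (by positivity)
        _ = ε ^ 2 / 16 * Real.log X := by field_simp
    have h9 : 1 / (2 * δ) * ∑ m ∈ Ico 1 H, ∑ N ∈ E, ‖∑ n ∈ Icc 1 (y N),
          (starRingEnd ℂ) ((∏ t, g t (n + hs t)) * ee (φ N n)) *
          ((∏ t, g t (n + m + hs t)) * ee (φ N (n + m)))‖ / (N : ℝ) ^ 2 ≤ ε / 8 * Real.log X := by
      calc _ ≤ 1 / (2 * δ) * (ε ^ 2 / 16 * Real.log X) :=
            mul_le_mul_of_nonneg_left (h6.trans h7) (by positivity)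
        _ = ε / 8 * Real.log X := by
            rw [hδ]
            field_simp
            ring
    have h10 : (δ / 2 + 1 / (2 * δ * H)) * ∑ N ∈ E, (1 : ℝ) / N ≤ (ε / 8 + ε / 4) * (1 + Real.log X) := by
      apply mul_le_mul _ hE1 (sum_nonneg fun _ _ => by positivity) (by positivity)
      rw [hδ] at *
      linarith
    have h11 : (H / δ + 2 * H) * ∑ N ∈ E, (1 : ℝ) / (N : ℝ) ^ 2 ≤ ε / 8 * Real.log X := by
      calc (H / δ + 2 * H) * ∑ N ∈ E, (1 : ℝ) / (N : ℝ) ^ 2 ≤ (H / δ + 2 * H) * 2 :=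
            mul_le_mul_of_nonneg_left hE2 (by positivity)
        _ ≤ _ := by linarith
    have h12 : (ε / 8 + ε / 4) * (1 + Real.log X) ≤ (ε / 8 + ε / 4) * Real.log X + ε / 8 * Real.log X := by
      nlinarith
    linarith

end Pool.Agent.Y842.CY
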