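import Mathlib

/-!
Library Y842.CY (helper842), part 1: polynomial phases through differences.
-/

set_option autoImplicit false

open Finset

namespace Pool.Agent.Y842.CY

/-- the phases whose differences of order `j` are linear; `θ` is the leading coefficient times `(j + 1)!` -/
def PP : ℕ → ℝ → (ℕ → ℝ) → Prop
  | 0, θ, φ => ∃ c : ℝ, ∀ n, φ n = θ * n + c
  | j + 1, θ, φ => ∀ m : ℕ, PP j (θ * m) (fun n => φ (n + m) - φ n)

lemma PP_zero {θ : ℝ} {φ : ℕ → ℝ} : PP 0 θ φ ↔ ∃ c : ℝ, ∀ n, φ n = θ * n + c := Iff.rfl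

lemma PP_succ {j : ℕ} {θ : ℝ} {φ : ℕ → ℝ} : PP (j + 1) θ φ ↔ ∀ m : ℕ, PP j (θ * m) (fun n => φ (n + m) - φ n) :=
  Iff.rfl

lemma PP.congr {j : ℕ} {θ θ' : ℝ} {φ φ' : ℕ → ℝ} (h : PP j θ φ) (e1 : θ = θ') (e2 : ∀ n, φ n = φ' n) : PP j θ' φ' := by
  have : φ = φ' := funext e2
  rw [← e1, ← this]
  exact h

lemma PP.add (j : ℕ) : ∀ {θ θ' : ℝ} {φ φ' : ℕ → ℝ}, PP j θ φ → PP j θ' φ' → PP j (θ + θ') (fun n => φ n + φ' n) := by
  induction j with
  | zero =>
    rintro θ θ' φ φ' ⟨c, hc⟩ ⟨c', hc'⟩
    exact ⟨c + c', fun n => by simp only [hc, hc']; ring⟩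
  | succ j ih =>
    intro θ θ' φ φ' h h' m
    exact (ih (h m) (h' m)).congr (by ring) (fun n => by ring)

lemma PP.smul (j : ℕ) : ∀ {θ : ℝ} {φ : ℕ → ℝ}, PP j θ φ → ∀ c : ℝ, PP j (c * θ) (fun n => c * φ n) := by
  induction j with
  | zero =>
    rintro θ φ ⟨d, hd⟩ c
    exact ⟨c * d, fun n => by simp only [hd]; ring⟩
  | succ j ih =>
    intro θ φ h c m
    exact (ih (h m) c).congr (by ring) (fun n => by ring)

lemma PP.zero' (j : ℕ) : PP j 0 (fun _ => 0) := by
  induction j with
  | zero => exact ⟨0, fun n => by ring⟩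
  | succ j ih =>
    intro m
    exact ih.congr (by ring) (fun n => by ring)

lemma PP.sum {ι : Type*} (j : ℕ) (s : Finset ι) (θ : ι → ℝ) (φ : ι → ℕ → ℝ) (h : ∀ i ∈ s, PP j (θ i) (φ i)) :
    PP j (∑ i ∈ s, θ i) (fun n => ∑ i ∈ s, φ i n) := by
  classical
  induction s using Finset.induction_on with
  | empty => simpa using PP.zero' j
  | insert i s hi ih =>
    have h1 := PP.add j (h i (mem_insert_self i s)) (ih fun i' hi' => h i' (mem_insert_of_mem hi'))
    exact h1.congr (by rw [sum_insert hi]) (fun n => by rw [sum_insert hi])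

lemma PP.monom (j : ℕ) : ∀ i : ℕ, i ≤ j + 1 →
    PP j (if i = j + 1 then ((j + 1).factorial : ℝ) else 0) (fun n => (n : ℝ) ^ i) := by
  induction j with
  | zero =>
    intro i hi
    have : i = 0 ∨ i = 1 := by omega
    rcases this with rfl | rfl
    · exact ⟨1, fun n => by simp⟩
    · exact ⟨0, fun n => by simp⟩
  | succ j ih =>
    intro i hi m
    have h1 := PP.sum j (range i) (fun l => ((i.choose l : ℝ) * (m : ℝ) ^ (i - l)) *
      (if l = j + 1 then ((j + 1).factorial : ℝ) else 0))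
      (fun l n => ((i.choose l : ℝ) * (m : ℝ) ^ (i - l)) * (n : ℝ) ^ l) (fun l hl => by
        rw [mem_range] at hl
        exact PP.smul j (ih l (by omega)) _)
    refine h1.congr ?_ (fun n => ?_)
    · by_cases hij : i = j + 1 + 1
      · rw [if_pos hij, sum_eq_single (j + 1)]
        · rw [if_pos rfl, hij, Nat.choose_succ_self_right, show j + 1 + 1 - (j + 1) = 1 by omega, pow_one,
            Nat.factorial_succ (j + 1)]
          push_cast
          ring
        · intro l _ hl
          rw [if_neg hl, mul_zero]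
        · intro hl
          exact absurd (mem_range.2 (by omega)) hl
      · rw [if_neg hij, zero_mul]
        refine sum_eq_zero fun l hl => ?_
        rw [mem_range] at hl
        rw [if_neg (by omega), mul_zero]
    · have h2 := add_pow (n : ℝ) (m : ℝ) i
      rw [sum_range_succ] at h2
      push_cast
      rw [h2]
      simp only [Nat.choose_self, Nat.sub_self, pow_zero, Nat.cast_one, mul_one, add_sub_cancel_right]
      refine sum_congr rfl fun l _ => ?_
      ring

/-- polynomials -/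
lemma PP.poly (j : ℕ) (P : Polynomial ℝ) (hP : P.natDegree ≤ j + 1) :
    PP j (((j + 1).factorial : ℝ) * P.coeff (j + 1)) (fun n => P.eval (n : ℝ)) := by
  have h1 := PP.sum j (range (j + 2)) (fun i => P.coeff i * (if i = j + 1 then ((j + 1).factorial : ℝ) else 0))
    (fun i n => P.coeff i * (n : ℝ) ^ i) (fun i hi => by
      rw [mem_range] at hi
      exact PP.smul j (PP.monom j i (by omega)) _)
  refine h1.congr ?_ (fun n => ?_)
  · rw [sum_eq_single (j + 1)]
    · rw [if_pos rfl]
      ring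
    · intro l _ hl
      rw [if_neg hl, mul_zero]
    · intro hl
      exact absurd (mem_range.2 (by omega)) hl
  · exact (Polynomial.eval_eq_sum_range' (by omega : P.natDegree < j + 2) (n : ℝ)).symm

/-- adding a linear phase -/
lemma PP.lin {j : ℕ} (hj : 1 ≤ j) {θ : ℝ} {φ : ℕ → ℝ} (h : PP j θ φ) (α : ℝ) : PP j θ (fun n => φ n + α * n) := by
  have h1 := PP.smul j (PP.monom j 1 (by omega)) α
  have h2 := PP.add j h h1
  refine h2.congr ?_ (fun n => by rw [pow_one])
  rw [if_neg (by omega)]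
  ring

end Pool.Agent.Y842.CY
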